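import Pool.Agent.N639.FH.Sm
import Pool.Agent.N586.RT.Cl
import Pool.Agent.W301.TD.ExpSum
import Pool.Agent.Y933.KE.Pows

/-!
# Project FH: the digits of `m p ^ N + y` and of `l p ^ n`
-/

set_option autoImplicit false

namespace Pool.Agent.N639.FH

open Finset Real MeasureTheory Pool.Agent.Y933.KD Filter Topology
open Pool.Agent.N639.FS Pool.Agent.N639.FG
open Pool.Agent.Y933.KE (WE smear meas_map smear_prob wd_smear real_smear measurableSet_WE WE_eq
  SPw SPw_prob tw_pow)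

/-- the multiples of `p ^ N` -/
theorem tg_SPw {p q : ℕ} (hp : 2 ≤ p) (hq : 2 ≤ q) (hpq : p.Coprime q) (A' : ℝ) {A : ℝ}
    (hA : 0 < A) : TG q (fun M => A * log M) (SPw p q A') :=
  tg_of_TW hq hA (by linarith : A < A + 1) (SPw_prob p q A')
    (fun k => tw_pow hp hq hpq A' k (A + 1))

/-- the laws of the digits of `l p ^ n`, `n < M`, at the places `s, …, s + J - 1` -/
def SLw (p q : ℕ) (δ C : ℝ) (M : ℕ) : Set (Measure ℝ) :=
  {P | ∃ l s J : ℕ, ¬ q ∣ l ∧ δ * log M ≤ s ∧ (s : ℝ) + J ≤ C * log M ∧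
    P = smear (range M) (fun n => l * p ^ n / q ^ s) q J}

lemma SLw_prob (p q : ℕ) (δ C : ℝ) (M : ℕ) (hM : 1 ≤ M) (P : Measure ℝ) (hP : P ∈ SLw p q δ C M) :
    IsProbabilityMeasure P := by
  obtain ⟨l, s, J, _, _, _, rfl⟩ := hP
  exact smear_prob ⟨0, mem_range.2 (by omega)⟩ _ _ _

lemma e_ee (x : ℝ) : e x = Pool.Agent.Helper602.MK.ee x := by
  unfold e Pool.Agent.Helper602.MK.ee
  push_cast
  rfl

lemma exists_val {q : ℕ} (hq : q.Prime) {H : ℤ} (hH : H ≠ 0) :
    ∃ (v : ℕ) (A : ℤ), ¬ (q : ℤ) ∣ A ∧ H = (q : ℤ) ^ v * A := by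
  obtain ⟨c, hc1, hc2⟩ := (Int.finiteMultiplicity_iff.2 ⟨by simpa using hq.ne_one, hH⟩ :
    FiniteMultiplicity (q : ℤ) H).exists_eq_pow_mul_and_not_dvd
  exact ⟨_, c, hc2, hc1⟩

/-- the exponential sums -/
lemma hat_low {p q : ℕ} (hp : 2 ≤ p) (hq : q.Prime) (hpq : ¬ q ∣ p) {δ : ℝ} (hδ : 0 < δ) (C : ℝ)
    (k : ℕ) : ∃ κ : ℝ, 0 < κ ∧ ∃ M0 : ℕ, ∀ M : ℕ, M0 ≤ M → ∀ l s J : ℕ, ¬ q ∣ l →
      δ * log M ≤ s → (s : ℝ) + J ≤ C * log M → ∀ (n : Fin k → ℕ) (h : Fin k → ℤ),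
      (∀ i, n i ≤ J) → (∀ i, |(h i : ℝ)| ≤ exp (κ * log M)) → ∑ i, h i * (q : ℤ) ^ n i ≠ 0 →
      ‖hat (unif (range M) (fun m => ((l * p ^ m : ℕ) : ℝ) / (q : ℝ) ^ (s + J)))
        (∑ i, h i * (q : ℤ) ^ n i)‖ ≤ exp (-(κ * log M)) := by
  have hqR : (2 : ℝ) ≤ q := by exact_mod_cast hq.two_le
  have hq0 : (0 : ℝ) < q := by linarith
  have hq1 : (1 : ℝ) < q := by linarith
  have hlq : 0 < log (q : ℝ) := Real.log_pos hq1
  set lq := log (q : ℝ) with hlqd
  obtain ⟨g0, hg0⟩ := Pool.Agent.W301.TD.AA.exists_tower hq hp hpq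
  have hg : 1 ≤ (q ^ 2).totient := Nat.totient_pos.2 (pow_pos hq.pos 2)
  set δ1 : ℝ := min (δ * lq / 2) 1 with hδ1
  have hδ10 : 0 < δ1 := lt_min (by positivity) one_pos
  have hδ11 : δ1 ≤ 1 := min_le_right _ _
  have hδ12 : δ1 ≤ δ * lq / 2 := min_le_left _ _
  set C1 : ℝ := max (C * lq) 0 with hC1
  have hC10 : 0 ≤ C1 := le_max_right _ _
  obtain ⟨η, hη, x0, hsum⟩ := Pool.Agent.W301.TD.AA.expsum hq hpq hg hg0 δ1 C1 hδ10 hδ11 hC10
  set κ : ℝ := min η (δ * lq / 4) with hκ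
  have hκ0 : 0 < κ := lt_min hη (by positivity)
  have hκ1 : κ ≤ η := min_le_left _ _
  have hκ2 : κ ≤ δ * lq / 4 := min_le_right _ _
  have hlog : Tendsto (fun M : ℕ => log (M : ℝ)) atTop atTop :=
    Real.tendsto_log_atTop.comp tendsto_natCast_atTop_atTop
  obtain ⟨M0, hM0⟩ := eventually_atTop.1 ((hlog.eventually_ge_atTop (x0 * lq)).and
    ((hlog.eventually_ge_atTop (log k / (δ * lq / 4))).and
    ((eventually_ge_atTop 1).and (hlog.eventually_ge_atTop 0))))
  refine ⟨κ, hκ0, M0, fun M hM l s J hl hs hsJ n h hn hh hne => ?_⟩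
  obtain ⟨m1, m2, m3, m4⟩ := hM0 M hM
  have hMp : (0 : ℝ) < M := by exact_mod_cast m3
  rw [div_le_iff₀ (by positivity)] at m2
  set H : ℤ := ∑ i, h i * (q : ℤ) ^ n i with hH
  obtain ⟨v, A, hA, hv⟩ := exists_val hq hne
  have hk : 0 < k := by
    rcases Nat.eq_zero_or_pos k with h0 | h0
    · exfalso
      subst h0
      apply hne
      rw [hH]
      simp
    · exact h0
  have hkR : (0 : ℝ) < k := by exact_mod_cast hk
  -- the size
  have h1 : |(H : ℝ)| ≤ k * (exp (κ * log M) * (q : ℝ) ^ J) := by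
    rw [hH]
    push_cast
    refine (abs_sum_le_sum_abs _ _).trans ?_
    refine (sum_le_card_nsmul _ _ (exp (κ * log M) * (q : ℝ) ^ J) fun i _ => ?_).trans ?_
    · rw [abs_mul, abs_of_nonneg (by positivity : (0 : ℝ) ≤ (q : ℝ) ^ n i)]
      have := hh i
      have h2 : (q : ℝ) ^ n i ≤ (q : ℝ) ^ J := pow_le_pow_right₀ hq1.le (hn i)
      gcongr
    · rw [card_univ, Fintype.card_fin, nsmul_eq_mul]
  have h2 : (q : ℝ) ^ v ≤ |(H : ℝ)| := by
    rw [hv]
    push_cast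
    rw [abs_mul, abs_of_nonneg (by positivity : (0 : ℝ) ≤ (q : ℝ) ^ v)]
    refine le_mul_of_one_le_right (by positivity) ?_
    have : 1 ≤ |A| := Int.one_le_abs (fun h => by rw [h] at hA; exact hA (dvd_zero _))
    exact_mod_cast this
  have h3 : (v : ℝ) * lq ≤ log k + κ * log M + J * lq := by
    have h4 := Real.log_le_log (by positivity) (h2.trans h1)
    rw [Real.log_pow, Real.log_mul hkR.ne' (by positivity), Real.log_mul (by positivity)
      (by positivity), Real.log_exp, Real.log_pow] at h4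
    linarith
  have h4 : (v : ℝ) ≤ J + δ / 2 * log M := by
    have h5 : (v : ℝ) * lq ≤ (J + δ / 2 * log M) * lq := by
      have : κ * log M ≤ δ * lq / 4 * log M := mul_le_mul_of_nonneg_right hκ2 m4
      linarith
    exact le_of_mul_le_mul_right h5 hlq
  have hvs : v ≤ s + J := by
    have h5 : (v : ℝ) ≤ s + J := by
      have : δ / 2 * log M ≤ δ * log M := by nlinarith
      linarith
    exact_mod_cast h5
  set ι : ℕ := s + J - v with hι
  have hιR : (ι : ℝ) = s + J - v := by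
    rw [hι, Nat.cast_sub hvs]
    push_cast
    ring
  set x : ℝ := log M / lq with hx
  have hxl : x * lq = log M := by rw [hx]; field_simp
  have hqx : (q : ℝ) ^ x = M := by
    rw [Real.rpow_def_of_pos hq0, ← hlqd, mul_comm, hxl, Real.exp_log hMp]
  have hx0 : 0 ≤ x := by positivity
  have key := hsum x (by rw [hx, le_div_iff₀ hlq]; exact m1) M hqx.symm ι (by
      rw [hιR]
      have : δ1 * x ≤ δ * lq / 2 * x := mul_le_mul_of_nonneg_right hδ12 hx0
      have e1 : δ * lq / 2 * x = δ / 2 * log M := by rw [← hxl]; ring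
      linarith) (by
      rw [hιR]
      have h5 : C * lq * x ≤ C1 * x := mul_le_mul_of_nonneg_right (le_max_left _ _) hx0
      have e1 : C * lq * x = C * log M := by rw [← hxl]; ring
      have : (0 : ℝ) ≤ v := Nat.cast_nonneg v
      linarith) (A * l) (by
      intro hd
      rcases (Nat.prime_iff_prime_int.1 hq).dvd_or_dvd hd with hd | hd
      · exact hA hd
      · exact hl (by exact_mod_cast hd))
  have e1 : ∀ m : ℕ, e (((H : ℤ) : ℝ) * (((l * p ^ m : ℕ) : ℝ) / (q : ℝ) ^ (s + J))) =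
      Pool.Agent.Helper602.MK.ee (((A * l : ℤ) : ℝ) * (p : ℝ) ^ m / (q : ℝ) ^ ι) := by
    intro m
    rw [e_ee]
    congr 1
    rw [hv]
    have h5 : (q : ℝ) ^ (s + J) = (q : ℝ) ^ ι * (q : ℝ) ^ v := by
      rw [← pow_add]; congr 1; omega
    rw [h5]
    push_cast
    field_simp
  unfold hat
  rw [integral_unif]
  simp only [e1]
  rw [norm_mul, norm_div, norm_one, Complex.norm_natCast, card_range, one_div,
    inv_mul_le_iff₀ hMp]
  refine key.trans ?_
  rw [mul_comm]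
  gcongr
  have e2 : (q : ℝ) ^ (-(η * x)) = exp (-(η * log M)) := by
    rw [Real.rpow_def_of_pos hq0, ← hlqd, ← hxl]
    congr 1
    ring
  rw [e2]
  apply Real.exp_le_exp.2
  have : κ * log M ≤ η * log M := mul_le_mul_of_nonneg_right hκ1 m4
  linarith

/-- the tests on words of the digits -/
theorem low_words {p q : ℕ} (hp : 2 ≤ p) (hq : q.Prime) (hpq : ¬ q ∣ p) {δ : ℝ} (hδ : 0 < δ)
    (C : ℝ) (k : ℕ) : ∃ ρ : ℝ, 0 < ρ ∧ ∃ C' : ℝ, ∃ M0 : ℕ, ∀ M : ℕ, M0 ≤ M → ∀ l s J : ℕ,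
      ¬ q ∣ l → δ * log M ≤ s → (s : ℝ) + J ≤ C * log M → ∀ n w c : Fin k → ℕ,
      (∀ i, n i + w i ≤ J) →
      |(((range M).filter (fun m => ∀ r, l * p ^ m / q ^ s / q ^ (J - (n r + w r)) % q ^ (w r) =
        c r)).card : ℝ) / (range M).card - Leb.real (WE q n w c)| ≤ C' * (M : ℝ) ^ (-ρ) := by
  obtain ⟨κ, hκ, M0, hM0⟩ := hat_low hp hq hpq hδ C k
  have hq1 : 1 ≤ q := hq.one_lt.le
  have hq0 : (0 : ℝ) < q := by exact_mod_cast hq.pos
  refine ⟨κ / (3 * k + 4), by positivity, 3 ^ k + k * 29, max M0 1,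
    fun M hM l s J hl hs hsJ n w c hn => ?_⟩
  have hM1 : 1 ≤ M := le_of_max_le_right hM
  have hMp : (0 : ℝ) < M := by exact_mod_cast hM1
  have hlM : 0 ≤ log (M : ℝ) := Real.log_natCast_nonneg M
  have hpos : (0 : ℝ) ≤ (3 ^ k + (k : ℝ) * 29) * (M : ℝ) ^ (-(κ / (3 * k + 4))) := by positivity
  -- the proportion as a probability
  set x : ℕ → ℝ := fun m => ((l * p ^ m : ℕ) : ℝ) / (q : ℝ) ^ (s + J) with hx
  have hP := unif_prob (s := range M) ⟨0, mem_range.2 (by omega)⟩ x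
  classical
  have e1 : (((range M).filter (fun m => ∀ r, l * p ^ m / q ^ s / q ^ (J - (n r + w r)) %
      q ^ (w r) = c r)).card : ℝ) / (range M).card = (unif (range M) x).real (WE q n w c) := by
    rw [real_unif _ _ (measurableSet_WE _ _ _ _)]
    congr 2
    congr 1
    refine filter_congr fun m _ => ?_
    unfold WE
    simp only [Set.mem_ofPred_eq]
    refine forall_congr' fun r => ?_
    have h1 : n r + w r ≤ s + J := by have := hn r; omega
    have h2 := wd_smear hq1 h1 (l * p ^ m) (θ := 0) (by simp)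
    rw [add_zero] at h2
    have h3 : s + J - (n r + w r) = s + (J - (n r + w r)) := by have := hn r; omega
    rw [hx]
    simp only
    rw [h2, h3, pow_add, Nat.div_div_eq_div_mul]
  rw [e1]
  by_cases hc : ∀ i, c i < q ^ w i
  · rw [WE_eq hq1]
    have key := Pool.Agent.N586.RT.events_test (b := q) hq1 (τ := κ * log M) (by positivity)
      (unif (range M) x) n
      (fun h hh hne => hM0 M (le_of_max_le_left hM) l s J hl hs hsJ n h
        (fun i => by have := hn i; omega) hh hne)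
      (fun i => (c i : ℝ) / (q : ℝ) ^ (w i)) (fun i => ((c i : ℝ) + 1) / (q : ℝ) ^ (w i))
      (fun i => by positivity) (fun i => by
        rw [div_le_one (by positivity)]
        exact_mod_cast hc i)
    refine key.trans (le_of_eq ?_)
    congr 1
    rw [Real.rpow_def_of_pos hMp]
    congr 1
    ring
  · push Not at hc
    obtain ⟨i, hi⟩ := hc
    have e2 : WE q n w c = ∅ := by
      ext y
      simp only [Set.mem_empty_iff_false, iff_false]
      intro hy
      have h1 := hy i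
      have h2 := wd_lt hq1 (w i) (n i) y
      omega
    rw [e2]
    simp only [measureReal_empty, sub_self, abs_zero]
    exact hpos

/-- **the lowest digits of the powers** -/
theorem tg_SLw {p q : ℕ} (hp : 2 ≤ p) (hq : q.Prime) (hpq : ¬ q ∣ p) {δ : ℝ} (hδ : 0 < δ)
    (C : ℝ) {A : ℝ} (hA : 0 < A) : TG q (fun M => A * log M) (SLw p q δ C) := by
  refine tg_of_words hq.two_le hA (by linarith : A < A + 1) (SLw_prob p q δ C) fun k => ?_
  obtain ⟨ρ, hρ, C', M0, h⟩ := low_words hp hq hpq hδ C k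
  refine ⟨ρ, hρ, C', ?_⟩
  filter_upwards [eventually_ge_atTop M0] with M hM P hP n w c _
  obtain ⟨l, s, J, hl, hs, hsJ, rfl⟩ := hP
  exact tw_smear hq.one_lt.le (range M) (fun n => l * p ^ n / q ^ s) J
    (fun n w c hn => h M hM l s J hl hs hsJ n w c hn) n w c

end Pool.Agent.N639.FH
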