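import Pool.Agent.N639.FH.FinP
import Pool.Agent.Y951.TU.Fam

/-!
# Project FH: the laws for the digit matrices of the multiples of tuples of algebraic numbers
-/

set_option autoImplicit false

namespace Pool.Agent.N639.FH

open Finset Real MeasureTheory Filter Topology
open Pool.Agent.Y933.KD (wd cnd Tb Leb measurable_wd wd_lt box card_box)
open Pool.Agent.N639.FS Pool.Agent.N639.FG
open Pool.Agent.Y951.TU (mix mix_inj mix_lt mix_mod mix_div mix_surj tw Psi SX SX_prob TW_SX unif comb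
  measurable_Psi wd_Psi SM SM_prob real_unif tw_lt prod_pos')

variable {r d : ℕ}

lemma two_le_prod (hr : 1 ≤ r) {b : Fin r → ℕ} (hb : ∀ j, 2 ≤ b j) : 2 ≤ ∏ j, b j := by
  calc 2 ≤ 2 ^ r := by
        calc 2 = 2 ^ 1 := (pow_one 2).symm
          _ ≤ 2 ^ r := Nat.pow_le_pow_right (by norm_num) hr
    _ = ∏ _j : Fin r, 2 := by rw [prod_const, card_univ, Fintype.card_fin]
    _ ≤ ∏ j, b j := Finset.prod_le_prod' fun j _ => hb j

theorem tg_SX (hr : 1 ≤ r) (Ω : Fin r → Fin d → ℝ) (halg : ∀ j t, IsAlgebraic ℚ (Ω j t))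
    (hind : ∀ c : Fin r → ℤ, c ≠ 0 → ∃ t, Irrational (∑ j, c j * Ω j t)) {b : Fin r → ℕ}
    (hb : ∀ j, 2 ≤ b j) {A : ℝ} (hA : 0 < A) :
    TG (∏ j, b j) (fun M => 2 * (A * log M)) (SX Ω b A (2 * A + 1)) := by
  have := tg_of_TW (two_le_prod hr hb) (A' := 2 * A) (A := 2 * A + 1) (by positivity)
    (by linarith) (SX_prob Ω b A (2 * A + 1))
    (fun k => TW_SX Ω halg hind (fun j => by have := hb j; omega) A (2 * A + 1) k)
  simpa only [mul_assoc] using this

/-- half of the range -/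
lemma tg_half' {q : ℕ} {L : ℕ → ℝ} {S : ℕ → Set (Measure ℝ)} (hT : TG q (fun M => 2 * L M) S) :
    TG q L S := by
  obtain ⟨h1, h2, h3⟩ := hT
  have hL : Tendsto L atTop atTop := by
    have := h1.const_mul_atTop (show (0 : ℝ) < 1 / 2 by norm_num)
    refine this.congr fun M => ?_
    ring
  refine ⟨hL, h2, fun k D => ?_⟩
  filter_upwards [h3 k D, hL.eventually_gt_atTop 0] with M h4 h5 P hP n hn u v hu hv
  refine (h4 P hP n (fun i => by linarith [hn i]) u v hu hv).trans ?_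
  gcongr
  linarith

/-- the number of mixed digits -/
noncomputable def JJ (A : ℝ) (M : ℕ) : ℕ := ⌈(2 * A + 1) * log M⌉₊

lemma mem_SX (Ω : Fin r → Fin d → ℝ) (b : Fin r → ℕ) {A : ℝ} {M : ℕ} (y : Fin r → ℝ)
    (s : Fin r → ℕ) (hs : ∀ j, (s j : ℝ) ≤ A * log M) :
    (unif (box d M) (comb Ω y)).map (Psi b (JJ A M) s) ∈ SX Ω b A (2 * A + 1) M :=
  ⟨_, ⟨y, rfl⟩, s, JJ A M, hs, Nat.le_ceil _, rfl⟩

open Classical in
lemma cnt_box {M : ℕ} (hM : 1 ≤ M) (Ω : Fin r → Fin d → ℝ) (b : Fin r → ℕ) (J : ℕ)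
    (y : Fin r → ℝ) (s : Fin r → ℕ) {U : Set ℝ} (hU : MeasurableSet U) {ε : ℝ}
    (h : ((unif (box d M) (comb Ω y)).map (Psi b J s)).real U ≤ ε) :
    (((box d M).filter fun m => Psi b J s (comb Ω y m) ∈ U).card : ℝ) ≤ ε * (M : ℝ) ^ d := by
  have hMp : (0 : ℝ) < M := by exact_mod_cast hM
  rw [map_measureReal_apply (measurable_Psi b J s) hU,
    real_unif _ _ ((measurable_Psi b J s) hU), card_box] at h
  push_cast at h
  rw [div_le_iff₀ (by positivity)] at h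
  exact h

/-- the digits of the mixed number -/
lemma cnd_Psi {b : Fin r → ℕ} (hb : ∀ j, 1 ≤ b j) {n w J : ℕ} (h : n + w ≤ J) (s : Fin r → ℕ)
    (x : Fin r → ℝ) (D : Fin r → ℕ) (hD : ∀ j, D j < b j ^ w) :
    wd (∏ j, b j) w n (Psi b J s x) = mix b w D ↔ ∀ j, wd (b j) w (s j + n) (x j) = D j := by
  rw [wd_Psi hb h]
  constructor
  · intro h1
    have h2 := mix_inj hb w _ _ (tw_lt hb _ _ _) hD h1
    intro j
    exact congrFun h2 j
  · intro h1
    congr 1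
    funext j
    exact h1 j

lemma log_ge (A : ℝ) : ∀ᶠ M : ℕ in atTop, A ≤ log (M : ℝ) :=
  (Real.tendsto_log_atTop.comp tendsto_natCast_atTop_atTop).eventually_ge_atTop A

open Classical in
/-- all matrices of all widths -/
theorem mat1 (hr : 1 ≤ r) (Ω : Fin r → Fin d → ℝ) (halg : ∀ j t, IsAlgebraic ℚ (Ω j t))
    (hind : ∀ c : Fin r → ℤ, c ≠ 0 → ∃ t, Irrational (∑ j, c j * Ω j t)) {b : Fin r → ℕ}
    (hb : ∀ j, 2 ≤ b j) {A : ℝ} (hA : 0 < A) {η : ℝ} (hη : 0 < η) (K : ℕ) :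
    ∀ᶠ M : ℕ in atTop, ∀ y : Fin r → ℝ,
      (((box d M).filter fun m => ¬ ∀ (w N : ℕ) (D s : Fin r → ℕ), (w : ℝ) ≤ A * log M →
        (∀ j, D j < b j ^ w) → (∀ j, (s j : ℝ) + N ≤ A * log M) →
        |(((range N).filter fun i => ∀ j, wd (b j) w (s j + i) (comb Ω y m j) = D j).card : ℝ) -
          N / ((∏ j, b j : ℕ) : ℝ) ^ w| ≤
          (A * log M) ^ η * (1 + √(N / ((∏ j, b j : ℕ) : ℝ) ^ w))).card : ℝ) ≤
        ((A * log M) ^ K)⁻¹ * (M : ℝ) ^ d := by
  have hb1 : ∀ j, 1 ≤ b j := fun j => by have := hb j; omega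
  have hT := tg_SX hr Ω halg hind hb hA
  filter_upwards [cg1w (two_le_prod hr hb) hT hη (K + (2 * r + 1)), eventually_ge_atTop 1,
    log_ge (2 / A)] with M hM hM1 hM2 y
  have hlM : 0 < log (M : ℝ) := lt_of_lt_of_le (by positivity) hM2
  set X : ℝ := A * log M with hX
  have hX2 : 2 ≤ X := by
    rw [div_le_iff₀ hA] at hM2
    rw [hX]
    linarith
  -- the offsets
  set T : ℕ := ⌊X⌋₊ with hT'
  have hTX : (T : ℝ) ≤ X := Nat.floor_le (by linarith)
  have h1 : ∀ s : Fin r → ℕ, ∃ U : Set ℝ, (∀ j, (s j : ℝ) ≤ X) → MeasurableSet U ∧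
      (((box d M).filter fun m => Psi b (JJ A M) s (comb Ω y m) ∈ U).card : ℝ) ≤
        (X ^ (K + (2 * r + 1)))⁻¹ * (M : ℝ) ^ d ∧
      ∀ x ∉ U, ∀ w s' N c : ℕ, ((s' + N : ℕ) : ℝ) ≤ X → c < (∏ j, b j) ^ w →
        |∑ n ∈ Ico s' (s' + N), cnd (∏ j, b j) w n c x - N / ((∏ j, b j : ℕ) : ℝ) ^ w| ≤
          X ^ η * (1 + √(N / ((∏ j, b j : ℕ) : ℝ) ^ w)) := by
    intro s
    by_cases hs : ∀ j, (s j : ℝ) ≤ X
    · obtain ⟨U, hU, hU1, hU2⟩ := hM _ (mem_SX Ω b y s hs)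
      exact ⟨U, fun _ => ⟨hU, cnt_box hM1 Ω b (JJ A M) y s hU hU1, hU2⟩⟩
    · exact ⟨∅, fun h => absurd h hs⟩
  choose U hU using h1
  set Off : Finset (Fin r → ℕ) := Fintype.piFinset fun _ : Fin r => range (T + 1) with hOff
  have hOffc : (Off.card : ℝ) ≤ X ^ (2 * r) := by
    rw [hOff, Fintype.card_piFinset]
    simp only [card_range, prod_const, card_univ, Fintype.card_fin]
    push_cast
    rw [pow_mul]
    have h2 : (T : ℝ) + 1 ≤ X ^ 2 := by nlinarith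
    gcongr
  have hmemOff : ∀ s : Fin r → ℕ, s ∈ Off ↔ ∀ j, (s j : ℝ) ≤ X := by
    intro s
    rw [hOff, Fintype.mem_piFinset]
    refine forall_congr' fun j => ?_
    rw [mem_range, Nat.lt_succ_iff, hT', Nat.le_floor_iff (by linarith)]
  have hsub : ((box d M).filter fun m => ¬ ∀ (w N : ℕ) (D s : Fin r → ℕ), (w : ℝ) ≤ X →
        (∀ j, D j < b j ^ w) → (∀ j, (s j : ℝ) + N ≤ X) →
        |(((range N).filter fun i => ∀ j, wd (b j) w (s j + i) (comb Ω y m j) = D j).card : ℝ) -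
          N / ((∏ j, b j : ℕ) : ℝ) ^ w| ≤ X ^ η * (1 + √(N / ((∏ j, b j : ℕ) : ℝ) ^ w))) ⊆
      Off.biUnion fun s => (box d M).filter fun m => Psi b (JJ A M) s (comb Ω y m) ∈ U s := by
    intro m hm
    rw [mem_filter] at hm
    by_contra hcon
    apply hm.2
    intro w N D s hw hD hsN
    have hs : ∀ j, (s j : ℝ) ≤ X := fun j => by
      have h3 := hsN j
      have h4 : (0 : ℝ) ≤ N := Nat.cast_nonneg N
      linarith
    obtain ⟨_, _, h5⟩ := hU s hs
    have h6 : Psi b (JJ A M) s (comb Ω y m) ∉ U s := by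
      intro h7
      apply hcon
      rw [mem_biUnion]
      exact ⟨s, (hmemOff s).2 hs, mem_filter.2 ⟨hm.1, h7⟩⟩
    have hN : (N : ℝ) ≤ X := by
      have h3 := hsN ⟨0, hr⟩
      have h4 : (0 : ℝ) ≤ s ⟨0, hr⟩ := Nat.cast_nonneg _
      linarith
    have h8 := h5 _ h6 w 0 N (mix b w D) (by rw [Nat.zero_add]; exact hN) (mix_lt hb1 w D)
    have h9 : ∑ n ∈ Ico 0 (0 + N), cnd (∏ j, b j) w n (mix b w D)
        (Psi b (JJ A M) s (comb Ω y m)) =
        (((range N).filter fun i => ∀ j, wd (b j) w (s j + i) (comb Ω y m j) = D j).card : ℝ) := by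
      rw [Nat.zero_add, ← range_eq_Ico, card_filter]
      push_cast
      refine sum_congr rfl fun n hn => ?_
      rw [mem_range] at hn
      unfold cnd
      have h10 : n + w ≤ JJ A M := by
        have h11 : ((n + w : ℕ) : ℝ) ≤ JJ A M := by
          refine le_trans ?_ (Nat.le_ceil _)
          push_cast
          have h12 : (n : ℝ) ≤ N := by exact_mod_cast hn.le
          have h13 : (2 * A + 1) * log (M : ℝ) = 2 * X + log M := by rw [hX]; ring
          rw [h13]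
          linarith
        exact_mod_cast h11
      simp only [cnd_Psi hb1 h10 s _ D hD]
    rw [h9] at h8
    exact h8
  calc (((box d M).filter fun m => ¬ ∀ (w N : ℕ) (D s : Fin r → ℕ), (w : ℝ) ≤ X →
        (∀ j, D j < b j ^ w) → (∀ j, (s j : ℝ) + N ≤ X) →
        |(((range N).filter fun i => ∀ j, wd (b j) w (s j + i) (comb Ω y m j) = D j).card : ℝ) -
          N / ((∏ j, b j : ℕ) : ℝ) ^ w| ≤ X ^ η * (1 + √(N / ((∏ j, b j : ℕ) : ℝ) ^ w))).card : ℝ)
      ≤ ((Off.biUnion fun s =>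
        (box d M).filter fun m => Psi b (JJ A M) s (comb Ω y m) ∈ U s).card : ℝ) := by
        exact_mod_cast card_le_card hsub
    _ ≤ ∑ s ∈ Off, (((box d M).filter fun m =>
        Psi b (JJ A M) s (comb Ω y m) ∈ U s).card : ℝ) := by
        exact_mod_cast card_biUnion_le
    _ ≤ ∑ _s ∈ Off, (X ^ (K + (2 * r + 1)))⁻¹ * (M : ℝ) ^ d :=
        sum_le_sum fun s hs => (hU s ((hmemOff s).1 hs)).2.1
    _ = Off.card * ((X ^ (K + (2 * r + 1)))⁻¹ * (M : ℝ) ^ d) := by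
        rw [sum_const, nsmul_eq_mul]
    _ ≤ X ^ (2 * r) * ((X ^ (K + (2 * r + 1)))⁻¹ * (M : ℝ) ^ d) := by gcongr
    _ = X⁻¹ * ((X ^ K)⁻¹ * (M : ℝ) ^ d) := by
        rw [pow_add, pow_add, pow_one]
        have : X ≠ 0 := by linarith
        field_simp
    _ ≤ 1 * ((X ^ K)⁻¹ * (M : ℝ) ^ d) := by
        gcongr
        exact inv_le_one_of_one_le₀ (by linarith)
    _ = (X ^ K)⁻¹ * (M : ℝ) ^ d := one_mul _

lemma le_JJ {A : ℝ} {M n w N : ℕ} (hlM : 0 ≤ log (M : ℝ)) (hn : n < N) (hN : (N : ℝ) ≤ A * log M)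
    (hw : (w : ℝ) ≤ A * log M) : n + w ≤ JJ A M := by
  have h11 : ((n + w : ℕ) : ℝ) ≤ JJ A M := by
    refine le_trans ?_ (Nat.le_ceil _)
    push_cast
    have h12 : (n : ℝ) ≤ N := by exact_mod_cast hn.le
    have h13 : (2 * A + 1) * log (M : ℝ) = 2 * (A * log M) + log M := by ring
    rw [h13]
    linarith
  exact_mod_cast h11

open Classical in
/-- the number of different matrices -/
theorem mat4 (hr : 1 ≤ r) (Ω : Fin r → Fin d → ℝ) (halg : ∀ j t, IsAlgebraic ℚ (Ω j t))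
    (hind : ∀ c : Fin r → ℤ, c ≠ 0 → ∃ t, Irrational (∑ j, c j * Ω j t)) {b : Fin r → ℕ}
    (hb : ∀ j, 2 ≤ b j) {A : ℝ} (hA : 0 < A) {ε : ℝ} (hε : 0 < ε) : ∃ N0 : ℕ,
    ∀ᶠ M : ℕ in atTop, ∀ (y : Fin r → ℝ) (s : Fin r → ℕ) (N : ℕ), N0 ≤ N →
      (∀ j, (s j : ℝ) + N ≤ A * log M) →
      (((box d M).filter fun m => ¬ ∀ w : ℕ, (w : ℝ) ≤ A * log M →
        |(((range N).image fun i j => wd (b j) w (s j + i) (comb Ω y m j)).card : ℝ) -
          ((∏ j, b j : ℕ) : ℝ) ^ w * (1 - exp (-(N / ((∏ j, b j : ℕ) : ℝ) ^ w)))| ≤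
          ε * (((∏ j, b j : ℕ) : ℝ) ^ w * (1 - exp (-(N / ((∏ j, b j : ℕ) : ℝ) ^ w))))).card : ℝ) ≤
        ε * (M : ℝ) ^ d := by
  have hb1 : ∀ j, 1 ≤ b j := fun j => by have := hb j; omega
  have hT := tg_SX hr Ω halg hind hb hA
  obtain ⟨N0, hN0⟩ := cg4 (two_le_prod hr hb) (Pool.Agent.N639.FH.tg_half' hT) hε
  refine ⟨N0, ?_⟩
  filter_upwards [hN0, eventually_ge_atTop 1] with M hM hM1 y s N hN hsN
  have hlM : 0 ≤ log (M : ℝ) := Real.log_natCast_nonneg M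
  have hs : ∀ j, (s j : ℝ) ≤ A * log M := fun j => by
    have h3 := hsN j
    have h4 : (0 : ℝ) ≤ N := Nat.cast_nonneg N
    linarith
  have hNA : (N : ℝ) ≤ A * log M := by
    have h3 := hsN ⟨0, hr⟩
    have h4 : (0 : ℝ) ≤ s ⟨0, hr⟩ := Nat.cast_nonneg _
    linarith
  obtain ⟨U, hU, hU1, hU2⟩ := hM _ (mem_SX Ω b y s hs) N hN hNA
  refine le_trans ?_ (cnt_box hM1 Ω b (JJ A M) y s hU hU1)
  have hsub : ((box d M).filter fun m => ¬ ∀ w : ℕ, (w : ℝ) ≤ A * log M →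
        |(((range N).image fun i j => wd (b j) w (s j + i) (comb Ω y m j)).card : ℝ) -
          ((∏ j, b j : ℕ) : ℝ) ^ w * (1 - exp (-(N / ((∏ j, b j : ℕ) : ℝ) ^ w)))| ≤
          ε * (((∏ j, b j : ℕ) : ℝ) ^ w * (1 - exp (-(N / ((∏ j, b j : ℕ) : ℝ) ^ w))))) ⊆
      (box d M).filter fun m => Psi b (JJ A M) s (comb Ω y m) ∈ U := by
    intro m hm
    rw [mem_filter] at hm ⊢
    refine ⟨hm.1, ?_⟩
    by_contra hcon
    apply hm.2
    intro w hw
    have h1 := hU2 _ hcon w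
    have h2 : dw (∏ j, b j) w N (Psi b (JJ A M) s (comb Ω y m)) =
        ((range N).image fun i j => wd (b j) w (s j + i) (comb Ω y m j)).card := by
      unfold dw
      have h3 : (range N).image (fun n => wd (∏ j, b j) w n (Psi b (JJ A M) s (comb Ω y m))) =
          ((range N).image fun i j => wd (b j) w (s j + i) (comb Ω y m j)).image (mix b w) := by
        rw [image_image]
        refine image_congr fun n hn => ?_
        rw [coe_range, Set.mem_Iio] at hn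
        simp only [Function.comp_apply]
        exact wd_Psi hb1 (le_JJ hlM hn hNA hw) s _
      rw [h3]
      apply card_image_of_injOn
      intro D hD D' hD' he
      rw [Finset.mem_coe, mem_image] at hD hD'
      obtain ⟨i, _, rfl⟩ := hD
      obtain ⟨i', _, rfl⟩ := hD'
      exact mix_inj hb1 w _ _ (fun j => wd_lt (hb1 j) _ _ _) (fun j => wd_lt (hb1 j) _ _ _) he
    rw [h2] at h1
    exact h1
  exact_mod_cast card_le_card hsub

open Classical in
/-- the Poisson law for matrices -/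
theorem mat3 (hr : 1 ≤ r) (Ω : Fin r → Fin d → ℝ) (halg : ∀ j t, IsAlgebraic ℚ (Ω j t))
    (hind : ∀ c : Fin r → ℤ, c ≠ 0 → ∃ t, Irrational (∑ j, c j * Ω j t)) {b : Fin r → ℕ}
    (hb : ∀ j, 2 ≤ b j) {A : ℝ} (hA : 0 < A) (R k : ℕ) {κ : ℝ} (hκ : 0 < κ) {ε : ℝ}
    (hε : 0 < ε) : ∃ N0 : ℕ,
    ∀ᶠ M : ℕ in atTop, ∀ (y : Fin r → ℝ) (s : Fin r → ℕ) (w N : ℕ) (W : Finset (Fin r → ℕ)),
      N0 ≤ N → (∀ j, (s j : ℝ) + N ≤ A * log M) →
      (N : ℝ) ≤ κ * ((∏ j, b j : ℕ) : ℝ) ^ w → ((∏ j, b j : ℕ) : ℝ) ^ w ≤ κ * N →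
      (∀ D ∈ W, ∀ j, D j < b j ^ w) → W.card = R →
      (∀ D ∈ W, ∀ D' ∈ W, ∀ e : ℕ, 1 ≤ e → 2 * e ≤ w →
        (fun j => D j % b j ^ (w - e)) ≠ fun j => D' j / b j ^ e) →
      |(((box d M).filter fun m => ((range N).filter fun i =>
          (fun j => wd (b j) w (s j + i) (comb Ω y m j)) ∈ W).card = k).card : ℝ) / (M : ℝ) ^ d -
        exp (-(R * (N / ((∏ j, b j : ℕ) : ℝ) ^ w))) *
          (R * (N / ((∏ j, b j : ℕ) : ℝ) ^ w)) ^ k / k.factorial| ≤ ε := by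
  have hb1 : ∀ j, 1 ≤ b j := fun j => by have := hb j; omega
  have hT := tg_SX hr Ω halg hind hb hA
  obtain ⟨N0, hN0⟩ := cg3 (two_le_prod hr hb) (Pool.Agent.N639.FH.tg_half' hT) R k κ hκ hε
  -- the width is small
  have hBR : (2 : ℝ) ≤ ((∏ j, b j : ℕ) : ℝ) := by exact_mod_cast two_le_prod hr hb
  have hlB : 1 / 2 ≤ log ((∏ j, b j : ℕ) : ℝ) := by
    have h4 : log 2 ≤ log ((∏ j, b j : ℕ) : ℝ) := Real.log_le_log (by norm_num) hBR
    have := Real.log_two_gt_d9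
    linarith
  have ev : ∀ᶠ t : ℝ in atTop, 2 * log (κ * t) ≤ t := by
    have h1 : Tendsto (fun t : ℝ => log t / t) atTop (𝓝 0) := by
      have := Real.tendsto_pow_log_div_mul_add_atTop 1 0 1 one_ne_zero
      simpa using this
    filter_upwards [h1.eventually_le_const (by norm_num : (0 : ℝ) < 1 / 4),
      eventually_gt_atTop 0, eventually_ge_atTop (4 * log κ)] with t h2 h3 h4
    rw [div_le_iff₀ h3] at h2
    rw [Real.log_mul hκ.ne' h3.ne']
    linarith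
  have hlogA : Tendsto (fun M : ℕ => A * log (M : ℝ)) atTop atTop :=
    (Real.tendsto_log_atTop.comp tendsto_natCast_atTop_atTop).const_mul_atTop hA
  refine ⟨N0, ?_⟩
  filter_upwards [hN0, eventually_ge_atTop 1, hlogA.eventually ev, hlogA.eventually_gt_atTop 0]
    with M hM hM1 hM2 hM3 y s w N W hN hsN g1 g2 g3 g4 g5
  have hlM : 0 ≤ log (M : ℝ) := Real.log_natCast_nonneg M
  have hs : ∀ j, (s j : ℝ) ≤ A * log M := fun j => by
    have h3 := hsN j
    have h4 : (0 : ℝ) ≤ N := Nat.cast_nonneg N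
    linarith
  have hNA : (N : ℝ) ≤ A * log M := by
    have h3 := hsN ⟨0, hr⟩
    have h4 : (0 : ℝ) ≤ s ⟨0, hr⟩ := Nat.cast_nonneg _
    linarith
  have hw : (w : ℝ) ≤ A * log M := by
    have h1 : ((∏ j, b j : ℕ) : ℝ) ^ w ≤ κ * (A * log M) := g2.trans (by gcongr)
    have h2 : (w : ℝ) * log ((∏ j, b j : ℕ) : ℝ) ≤ log (κ * (A * log M)) := by
      rw [← Real.log_pow]
      exact Real.log_le_log (by positivity) h1
    have h3 : (w : ℝ) * (1 / 2) ≤ w * log ((∏ j, b j : ℕ) : ℝ) := by gcongr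
    linarith
  set W' : Finset ℕ := W.image (mix b w) with hW'
  have hW1 : W' ⊆ range ((∏ j, b j) ^ w) := by
    intro c hc
    rw [hW', mem_image] at hc
    obtain ⟨D, _, rfl⟩ := hc
    exact mem_range.2 (mix_lt hb1 w D)
  have hW2 : W'.card = R := by
    rw [hW', card_image_of_injOn, g4]
    intro D hD D' hD' he
    exact mix_inj hb1 w _ _ (g3 D hD) (g3 D' hD') he
  have hW3 : NoOv (∏ j, b j) w W' := by
    intro c hc c' hc' e he1 he2 heq
    rw [hW', mem_image] at hc hc'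
    obtain ⟨D, hD, rfl⟩ := hc
    obtain ⟨D', hD', rfl⟩ := hc'
    have h1 := mix_mod hb1 e (w - e) D
    have h2 := mix_div hb1 (w - e) e D'
    have h3 : w - e + e = w := by omega
    have h4 : e + (w - e) = w := by omega
    rw [h3] at h1
    rw [h4] at h2
    rw [h1, h2] at heq
    refine g5 D hD D' hD' e he1 he2 (mix_inj hb1 (w - e) _ _ (fun j => Nat.mod_lt _ ?_)
      (fun j => ?_) heq)
    · have := hb1 j
      positivity
    · rw [Nat.div_lt_iff_lt_mul (by have := hb1 j; positivity), ← pow_add]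
      have h5 := g3 D' hD' j
      rwa [h3]
  have key := hM _ (mem_SX Ω b y s hs) w N W' hN hNA g1 g2 hW1 hW2 hW3
  have hm : MeasurableSet {x | ((range N).filter (fun n => wd (∏ j, b j) w n x ∈ W')).card = k} :=
    Pool.Agent.N79.FSC3.measurable_XX (∏ j, b j) w N W' (measurableSet_singleton k)
  rw [map_measureReal_apply (measurable_Psi b (JJ A M) s) hm,
    real_unif _ _ ((measurable_Psi b (JJ A M) s) hm), card_box] at key
  push_cast at key
  have h6 : ((box d M).filter fun m => comb Ω y m ∈ Psi b (JJ A M) s ⁻¹'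
      {x | ((range N).filter (fun n => wd (∏ j, b j) w n x ∈ W')).card = k}) =
      (box d M).filter fun m => ((range N).filter fun i =>
          (fun j => wd (b j) w (s j + i) (comb Ω y m j)) ∈ W).card = k := by
    refine filter_congr fun m _ => ?_
    rw [Set.mem_preimage, Set.mem_ofPred_eq]
    have h7 : (range N).filter (fun n => wd (∏ j, b j) w n
        (Psi b (JJ A M) s (comb Ω y m)) ∈ W') = (range N).filter fun i =>
          (fun j => wd (b j) w (s j + i) (comb Ω y m j)) ∈ W := by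
      refine filter_congr fun n hn => ?_
      rw [mem_range] at hn
      rw [wd_Psi hb1 (le_JJ hlM hn hNA hw) s _, hW', mem_image]
      constructor
      · rintro ⟨D, hD, he⟩
        have h8 := mix_inj hb1 w _ _ (g3 D hD) (tw_lt hb1 _ _ _) he
        rw [h8] at hD
        exact hD
      · intro h
        exact ⟨_, h, rfl⟩
    rw [h7]
  rw [h6] at key
  push_cast
  exact key

end Pool.Agent.N639.FH
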