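import Pool.Agent.N639.FH.Sm
import Pool.Agent.N639.FG.Fin4

/-!
# Project FH: the laws for the digits of finite families of natural numbers
-/

set_option autoImplicit false

namespace Pool.Agent.N639.FH

open Finset Real MeasureTheory Pool.Agent.Y933.KD Filter Topology
open Pool.Agent.N639.FS Pool.Agent.N639.FG
open Pool.Agent.Y933.KE (WE smear meas_map smear_prob wd_smear real_smear measurableSet_WE)

/-- the word of `w` digits of `Y` in base `q` with its highest digit at the place `i` -/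
def wo (q w i Y : ℕ) : ℕ := Y / q ^ (i + 1 - w) % q ^ w

lemma wo_eq {q : ℕ} (hq : 1 ≤ q) {w i lo hi : ℕ} (h1 : lo + w ≤ i + 1) (h2 : i < hi) (Y : ℕ)
    {θ : ℝ} (hθ : θ ∈ Set.Ico (0 : ℝ) 1) :
    wd q w (hi - 1 - i) ((((Y / q ^ lo : ℕ) : ℝ) + θ) / (q : ℝ) ^ (hi - lo)) = wo q w i Y := by
  rw [wd_smear hq (by omega) _ hθ]
  unfold wo
  rw [Nat.div_div_eq_div_mul, ← pow_add]
  congr 3
  omega

/-- the places `t ≤ i < t + N` and the places of the real number -/
lemma refl_image (hi t N : ℕ) (h : t + N ≤ hi) :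
    Ico t (t + N) = (Ico (hi - t - N) (hi - t - N + N)).image (fun n => hi - 1 - n) := by
  ext i
  simp only [mem_Ico, mem_image]
  constructor
  · rintro ⟨h1, h2⟩
    exact ⟨hi - 1 - i, by omega, by omega⟩
  · rintro ⟨n, hn, rfl⟩
    omega

lemma refl_card (hi t N : ℕ) (h : t + N ≤ hi) (φ : ℕ → Prop) [DecidablePred φ] :
    ((Ico t (t + N)).filter φ).card =
      ((Ico (hi - t - N) (hi - t - N + N)).filter (fun n => φ (hi - 1 - n))).card := by
  rw [refl_image hi t N h, filter_image]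
  rw [card_image_of_injOn]
  intro a ha b hb hab
  simp only [coe_filter, Set.mem_ofPred_eq, mem_Ico] at ha hb hab
  omega

open Classical in
/-- all words of all lengths -/
theorem low1 {q : ℕ} {L : ℕ → ℝ} {S : ℕ → Set (Measure ℝ)} (hq : 2 ≤ q)
    (hT : TG q (fun M => 2 * L M) S) {η : ℝ} (hη : 0 < η) (K : ℕ) :
    ∀ᶠ M : ℕ in atTop, ∀ (ι : Type) (T : Finset ι) (Y : ι → ℕ) (lo hi : ℕ), (hi : ℝ) ≤ L M →
      smear T (fun m => Y m / q ^ lo) q (hi - lo) ∈ S M →
      ((T.filter fun m => ¬ ∀ w t N c : ℕ, lo + w ≤ t + 1 → t + N ≤ hi → c < q ^ w →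
        |(((Ico t (t + N)).filter fun i => wo q w i (Y m) = c).card : ℝ) - N / (q : ℝ) ^ w| ≤
          (L M) ^ η * (1 + √(N / (q : ℝ) ^ w))).card : ℝ) ≤ ((L M) ^ K)⁻¹ * T.card := by
  filter_upwards [cg1w hq hT hη K] with M hM ι T Y lo hi hL hP
  obtain ⟨U, hU, hU1, hU2⟩ := hM _ hP
  refine cnt_smear hU hU1 fun m _ θ hθ hx w t N c h1 h2 h3 => ?_
  have h4 := hU2 _ hx w (hi - t - N) N c (by
    have h5 : ((hi - t - N + N : ℕ) : ℝ) ≤ hi := by
      exact_mod_cast (by omega : hi - t - N + N ≤ hi)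
    linarith) h3
  have h5 : (((Ico t (t + N)).filter fun i => wo q w i (Y m) = c).card : ℝ) =
      ∑ n ∈ Ico (hi - t - N) (hi - t - N + N), cnd q w n c
        ((((Y m / q ^ lo : ℕ) : ℝ) + θ) / (q : ℝ) ^ (hi - lo)) := by
    rw [refl_card hi t N h2, card_filter]
    push_cast
    refine sum_congr rfl fun n hn => ?_
    rw [mem_Ico] at hn
    unfold cnd
    have h6 := wo_eq (q := q) (by omega) (w := w) (i := hi - 1 - n) (lo := lo) (hi := hi)
      (by omega) (by omega) (Y m) hθ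
    have h7 : hi - 1 - (hi - 1 - n) = n := by omega
    rw [h7] at h6
    rw [h6]
  rw [h5]
  exact h4

open Classical in
/-- the number of different words -/
theorem low4 {q : ℕ} {L : ℕ → ℝ} {S : ℕ → Set (Measure ℝ)} (hq : 2 ≤ q)
    (hT : TG q L S) {ε : ℝ} (hε : 0 < ε) : ∃ N0 : ℕ,
    ∀ᶠ M : ℕ in atTop, ∀ (ι : Type) (T : Finset ι) (Y : ι → ℕ) (lo t N : ℕ), N0 ≤ N →
      (N : ℝ) ≤ L M → smear T (fun m => Y m / q ^ lo) q (t + N - lo) ∈ S M →
      ((T.filter fun m => ¬ ∀ w : ℕ, lo + w ≤ t + 1 →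
        |(((Ico t (t + N)).image fun i => wo q w i (Y m)).card : ℝ) -
          (q : ℝ) ^ w * (1 - exp (-(N / (q : ℝ) ^ w)))| ≤
          ε * ((q : ℝ) ^ w * (1 - exp (-(N / (q : ℝ) ^ w))))).card : ℝ) ≤ ε * T.card := by
  obtain ⟨N0, hN0⟩ := cg4 hq hT hε
  refine ⟨N0, ?_⟩
  filter_upwards [hN0] with M hM ι T Y lo t N hN hL hP
  obtain ⟨U, hU, hU1, hU2⟩ := hM _ hP N hN hL
  refine cnt_smear hU hU1 fun m _ θ hθ hx w h1 => ?_
  have h4 := hU2 _ hx w
  have h5 : ((Ico t (t + N)).image fun i => wo q w i (Y m)).card =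
      dw q w N ((((Y m / q ^ lo : ℕ) : ℝ) + θ) / (q : ℝ) ^ (t + N - lo)) := by
    unfold dw
    congr 1
    rw [refl_image (t + N) t N le_rfl, image_image]
    have h6 : t + N - t - N = 0 := by omega
    rw [h6, Nat.zero_add, ← range_eq_Ico]
    refine image_congr fun n hn => ?_
    rw [coe_range, Set.mem_Iio] at hn
    simp only [Function.comp_apply]
    have h7 := wo_eq (q := q) (by omega) (w := w) (i := t + N - 1 - n) (lo := lo) (hi := t + N)
      (by omega) (by omega) (Y m) hθ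
    have h8 : t + N - 1 - (t + N - 1 - n) = n := by omega
    rw [h8] at h7
    exact h7.symm
  rw [h5]
  exact h4

open Classical in
/-- the Poisson law -/
theorem low3 {q : ℕ} {L : ℕ → ℝ} {S : ℕ → Set (Measure ℝ)} (hq : 2 ≤ q) (hT : TG q L S)
    (r k : ℕ) (κ : ℝ) {ε : ℝ} (hκ : 0 < κ) (hε : 0 < ε) : ∃ N0 : ℕ,
    ∀ᶠ M : ℕ in atTop, ∀ (ι : Type) (T : Finset ι) (Y : ι → ℕ) (lo t w N : ℕ) (W : Finset ℕ),
      N0 ≤ N → (N : ℝ) ≤ L M → lo + w ≤ t + 1 → smear T (fun m => Y m / q ^ lo) q (t + N - lo) ∈ S M →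
      (N : ℝ) ≤ κ * (q : ℝ) ^ w → (q : ℝ) ^ w ≤ κ * N → W ⊆ range (q ^ w) → W.card = r →
      NoOv q w W →
      |((T.filter fun m => ((Ico t (t + N)).filter fun i => wo q w i (Y m) ∈ W).card = k).card : ℝ) /
        T.card - exp (-(r * (N / (q : ℝ) ^ w))) * (r * (N / (q : ℝ) ^ w)) ^ k / k.factorial| ≤
        ε := by
  obtain ⟨N0, hN0⟩ := cg3 hq hT r k κ hκ hε
  refine ⟨N0, ?_⟩
  filter_upwards [hN0] with M hM ι T Y lo t w N W hN hL h1 hP g1 g2 g3 g4 g5
  have key := hM _ hP w N W hN hL g1 g2 g3 g4 g5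
  have hm : MeasurableSet {x | ((range N).filter (fun n => wd q w n x ∈ W)).card = k} :=
    Pool.Agent.N79.FSC3.measurable_XX q w N W (measurableSet_singleton k)
  rw [real_smear _ q _ hm
    (fun m => ((Ico t (t + N)).filter fun i => wo q w i (Y m) ∈ W).card = k) ?_] at key
  · convert key using 6
  · intro m _ θ hθ
    have h5 : ((Ico t (t + N)).filter fun i => wo q w i (Y m) ∈ W).card =
        ((range N).filter (fun n => wd q w n
          ((((Y m / q ^ lo : ℕ) : ℝ) + θ) / (q : ℝ) ^ (t + N - lo)) ∈ W)).card := by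
      rw [refl_card (t + N) t N le_rfl]
      have h6 : t + N - t - N = 0 := by omega
      rw [h6, Nat.zero_add, ← range_eq_Ico]
      congr 1
      refine filter_congr fun n hn => ?_
      rw [mem_range] at hn
      have h7 := wo_eq (q := q) (by omega) (w := w) (i := t + N - 1 - n) (lo := lo) (hi := t + N)
        (by omega) (by omega) (Y m) hθ
      have h8 : t + N - 1 - (t + N - 1 - n) = n := by omega
      rw [h8] at h7
      rw [h7]
    rw [h5]
    exact Iff.rfl

/-- a word of length `w` stands twice in the block of the `N` places below the place `h` -/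
def RepB (q w h N Y : ℕ) : Prop :=
  ∃ i j : ℕ, h + w ≤ i + 1 + N ∧ i < j ∧ j < h ∧ wo q w i Y = wo q w j Y

open Classical in
/-- the longest repeated word -/
theorem low2 {q : ℕ} {L : ℕ → ℝ} {S : ℕ → Set (Measure ℝ)} (hq : 2 ≤ q)
    (hT : TG q L S) {ε : ℝ} (hε : 0 < ε) : ∃ N0 : ℕ,
    ∀ᶠ M : ℕ in atTop, ∀ (ι : Type) (T : Finset ι) (Y : ι → ℕ) (lo h : ℕ),
      (h : ℝ) ≤ L M → smear T (fun m => Y m / q ^ lo) q (h - lo) ∈ S M →
      ((T.filter fun m => ¬ ∀ N : ℕ, N0 ≤ N → lo + N ≤ h →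
        (∀ w : ℕ, (2 + ε) * log N ≤ w * log q → ¬ RepB q w h N (Y m)) ∧
        (∀ w : ℕ, w * log q ≤ (2 - ε) * log N → RepB q w h N (Y m))).card : ℝ) ≤ ε * T.card := by
  have hqR : (2 : ℝ) ≤ q := by exact_mod_cast hq
  have hlq : 1 / 2 ≤ log (q : ℝ) := by
    have h4 : log 2 ≤ log (q : ℝ) := Real.log_le_log (by norm_num) hqR
    have := Real.log_two_gt_d9
    linarith
  set ε1 : ℝ := min ε 1 / 2 with hε1
  have hm0 : 0 < min ε 1 := lt_min hε one_pos
  have hm1 : min ε 1 ≤ 1 := min_le_right _ _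
  have hm2 : min ε 1 ≤ ε := min_le_left _ _
  have e1 : 0 < ε1 := by positivity
  have e2 : 2 * ε1 ≤ ε := by rw [hε1]; linarith
  have e3 : ε1 ≤ 1 / 2 := by rw [hε1]; linarith
  obtain ⟨N1, hN1⟩ := cg2s hq hT e1
  -- large `N`
  have ev : ∀ᶠ N : ℕ in atTop, 4 * log (N : ℝ) ≤ N / 2 ∧ log 2 ≤ ε1 / 4 * log (N : ℝ) := by
    have t1 : Tendsto (fun N : ℕ => (N : ℝ)) atTop atTop := tendsto_natCast_atTop_atTop
    have t2 : Tendsto (fun N : ℕ => log (N : ℝ)) atTop atTop := Real.tendsto_log_atTop.comp t1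
    have t3 : ∀ᶠ x : ℝ in atTop, 4 * log x ≤ x / 2 := by
      have h1 : Tendsto (fun t : ℝ => log t / t) atTop (𝓝 0) := by
        have := Real.tendsto_pow_log_div_mul_add_atTop 1 0 1 one_ne_zero
        simpa using this
      filter_upwards [h1.eventually_le_const (by norm_num : (0 : ℝ) < 1 / 8),
        eventually_gt_atTop 0] with x h2 h3
      rw [div_le_iff₀ h3] at h2
      linarith
    filter_upwards [t1.eventually t3, t2.eventually_ge_atTop (log 2 / (ε1 / 4))] with N h1 h2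
    refine ⟨h1, ?_⟩
    rw [div_le_iff₀ (by positivity)] at h2
    linarith
  obtain ⟨N2, hN2⟩ := eventually_atTop.1 ev
  refine ⟨max (2 * N1 + 1) (max N2 2), ?_⟩
  filter_upwards [hN1] with M hM ι T Y lo h hL hP
  obtain ⟨V, hV, hV1, hV2⟩ := hM _ hP
  refine cnt_smear hV (hV1.trans (by linarith)) fun m _ θ hθ hx N hN hNh => ?_
  have hNN1 : 2 * N1 + 1 ≤ N := le_of_max_le_left hN
  obtain ⟨n1, n2⟩ := hN2 N (le_of_max_le_left (le_of_max_le_right hN))
  have hN2' : 2 ≤ N := le_of_max_le_right (le_of_max_le_right hN)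
  have hNR : (2 : ℝ) ≤ N := by exact_mod_cast hN2'
  have hlN : 0 ≤ log (N : ℝ) := Real.log_natCast_nonneg N
  have hNL : (N : ℝ) ≤ L M := by
    have : (N : ℝ) ≤ h := by exact_mod_cast (by omega : N ≤ h)
    linarith
  set y : ℝ := (((Y m / q ^ lo : ℕ) : ℝ) + θ) / (q : ℝ) ^ (h - lo) with hy
  -- the words of the block
  have hw : ∀ w n : ℕ, n + w ≤ N → n < h → wd q w n y = wo q w (h - 1 - n) (Y m) := by
    intro w n h1 h1'
    have h7 := wo_eq (q := q) (by omega) (w := w) (i := h - 1 - n) (lo := lo) (hi := h)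
      (by omega) (by omega) (Y m) hθ
    have h8 : h - 1 - (h - 1 - n) = n := by omega
    rw [h8] at h7
    exact h7
  have hlN0 : 0 < log (N : ℝ) := Real.log_pos (by linarith)
  constructor
  · rintro w hw1 ⟨i, j, h1, h2, h3, h4⟩
    have hw0 : 1 ≤ w := by
      by_contra hc
      have h0 : w = 0 := by omega
      rw [h0] at hw1
      have : 0 < (2 + ε) * log N := by positivity
      simp only [Nat.cast_zero, zero_mul] at hw1
      linarith
    refine (hV2 y hx N (by omega) hNL).1 w (le_trans ?_ hw1) ?_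
    · have : ε1 ≤ ε := by linarith
      gcongr
    · refine ⟨h - 1 - j, by omega, h - 1 - i, by omega, by omega, ?_⟩
      rw [hw w (h - 1 - j) (by omega) (by omega), hw w (h - 1 - i) (by omega) (by omega)]
      have e5 : h - 1 - (h - 1 - j) = j := by omega
      have e6 : h - 1 - (h - 1 - i) = i := by omega
      rw [e5, e6]
      exact h4.symm
  · intro w hw1
    rcases Nat.eq_zero_or_pos w with h0 | h0
    · subst h0
      refine ⟨h - 2, h - 1, by omega, by omega, by omega, ?_⟩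
      unfold wo
      rw [pow_zero, Nat.mod_one, Nat.mod_one]
    have h5 : (w : ℝ) ≤ 4 * log N := by
      have h6 : (w : ℝ) * (1 / 2) ≤ w * log q := by gcongr
      have h7 : (2 - ε) * log N ≤ 2 * log N := by gcongr; linarith
      linarith
    have hwN : 2 * w ≤ N := by
      have : (2 * w : ℝ) ≤ N := by linarith
      exact_mod_cast this
    set N' : ℕ := N + 1 - w with hN'
    have hN'1 : N ≤ 2 * N' := by omega
    have hN'0 : 0 < N' := by omega
    have hN'R : (0 : ℝ) < N' := by exact_mod_cast hN'0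
    have h8 : (N' : ℝ) ≤ L M := by
      have : (N' : ℝ) ≤ N := by exact_mod_cast (by omega : N' ≤ N)
      linarith
    have h9 : log (N : ℝ) - log 2 ≤ log N' := by
      rw [← Real.log_div (by linarith) (by norm_num)]
      apply Real.log_le_log (by linarith)
      rw [div_le_iff₀ (by norm_num)]
      have : (N : ℝ) ≤ 2 * N' := by exact_mod_cast hN'1
      linarith
    have h10 : (w : ℝ) * log q ≤ (2 - ε1) * log N' := by
      refine hw1.trans ?_
      have h11 : (1 - ε1 / 4) * log N ≤ log N' := by linarith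
      calc (2 - ε) * log N ≤ (2 - ε1) * ((1 - ε1 / 4) * log N) := by
            rw [← mul_assoc]
            apply mul_le_mul_of_nonneg_right _ hlN
            nlinarith
        _ ≤ (2 - ε1) * log N' := by
            apply mul_le_mul_of_nonneg_left h11
            linarith
    obtain ⟨a, ha, b, hb, hab, hW⟩ := (hV2 y hx N' (by omega) h8).2 w h10
    refine ⟨h - 1 - b, h - 1 - a, by omega, by omega, by omega, ?_⟩
    rw [← hw w b (by omega) (by omega), ← hw w a (by omega) (by omega)]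
    exact hW.symm

end Pool.Agent.N639.FH
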