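import Pool.Agent.N639.FH.FamP
import Pool.Agent.N639.FH.FinP

/-!
# Project FH: common steps for the multiples of `p ^ N` and for the powers `l p ^ n`
-/

set_option autoImplicit false

namespace Pool.Agent.N639.FH

open Finset Real MeasureTheory Pool.Agent.Y933.KD Filter Topology
open Pool.Agent.N639.FS Pool.Agent.N639.FG
open Pool.Agent.Y933.KE (smear SPw)

/-- the number of places of the multiples -/
lemma places_le {p q N hi : ℕ} (hp : 2 ≤ p) (hq : 2 ≤ q) {A : ℝ} {M : ℕ} (hM : 1 ≤ M)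
    (hN : (N : ℝ) ≤ A * log M) (h : q ^ hi ≤ p ^ N) :
    (hi : ℝ) ≤ (2 * |A| * log p + 1) * log M := by
  have hqR : (2 : ℝ) ≤ q := by exact_mod_cast hq
  have hpR : (2 : ℝ) ≤ p := by exact_mod_cast hp
  have hlM : 0 ≤ log (M : ℝ) := Real.log_natCast_nonneg M
  have hlq : 1 / 2 ≤ log (q : ℝ) := by
    have h4 : log 2 ≤ log (q : ℝ) := Real.log_le_log (by norm_num) hqR
    have := Real.log_two_gt_d9
    linarith
  have hlp : 0 ≤ log (p : ℝ) := Real.log_nonneg (by linarith)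
  have h1 : (hi : ℝ) * log q ≤ N * log p := by
    rw [← Real.log_pow, ← Real.log_pow]
    apply Real.log_le_log (by positivity)
    exact_mod_cast h
  have h2 : (hi : ℝ) * (1 / 2) ≤ hi * log q := by gcongr
  have h3 : (N : ℝ) * log p ≤ |A| * log M * log p := by
    have : A * log M ≤ |A| * log M := mul_le_mul_of_nonneg_right (le_abs_self A) hlM
    gcongr
    linarith
  nlinarith

/-- the multiples -/
theorem fam_mul {p q : ℕ} (hp : 2 ≤ p) (hq : 2 ≤ q) (hpq : p.Coprime q) (A : ℝ) :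
    ∃ A' : ℝ, 0 < A' ∧ ∃ S : ℕ → Set (Measure ℝ), TG q (fun M => 2 * (A' * log M)) S ∧
      ∀ M : ℕ, 1 ≤ M → ∀ N y hi : ℕ, (N : ℝ) ≤ A * log M → q ^ hi ≤ p ^ N →
        (hi : ℝ) ≤ A' * log M ∧
        smear (Icc 1 M) (fun m => (m * p ^ N + y) / q ^ 0) q (hi - 0) ∈ S M := by
  have hp0 : 0 ≤ log (p : ℝ) := Real.log_natCast_nonneg p
  refine ⟨2 * |A| * log p + 1, by positivity, SPw p q A, ?_, fun M hM N y hi hN h => ?_⟩
  · have := tg_SPw hp hq hpq A (A := 2 * (2 * |A| * log p + 1)) (by positivity)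
    simpa only [mul_assoc] using this
  · refine ⟨places_le hp hq hM hN h, N, hi, y, hN, h, ?_⟩
    simp only [pow_zero, Nat.div_one, Nat.sub_zero]

/-- the powers -/
theorem fam_pow {p q : ℕ} (hp : 2 ≤ p) (hq : q.Prime) (hpq : p.Coprime q) {δ : ℝ} (hδ : 0 < δ)
    (A : ℝ) :
    ∃ A' : ℝ, 0 < A' ∧ ∃ S : ℕ → Set (Measure ℝ), TG q (fun M => 2 * (A' * log M)) S ∧
      ∀ M : ℕ, 1 ≤ M → ∀ l lo hi : ℕ, ¬ q ∣ l → δ * log M ≤ lo → lo ≤ hi → (hi : ℝ) ≤ A * log M →
        (hi : ℝ) ≤ A' * log M ∧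
        smear (range M) (fun n => l * p ^ n / q ^ lo) q (hi - lo) ∈ S M := by
  have hpq' : ¬ q ∣ p := by
    intro h
    have h1 : q ∣ p.gcd q := Nat.dvd_gcd h dvd_rfl
    rw [hpq] at h1
    have := Nat.le_of_dvd one_pos h1
    have := hq.two_le
    omega
  refine ⟨|A| + 1, by positivity, SLw p q δ A, ?_, fun M hM l lo hi hl hlo h1 hhi => ?_⟩
  · have := tg_SLw hp hq hpq' hδ A (A := 2 * (|A| + 1)) (by positivity)
    simpa only [mul_assoc] using this
  · have hlM : 0 ≤ log (M : ℝ) := Real.log_natCast_nonneg M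
    constructor
    · have : A * log M ≤ (|A| + 1) * log M := by
        apply mul_le_mul_of_nonneg_right _ hlM
        linarith [le_abs_self A]
      linarith
    · refine ⟨l, lo, hi - lo, hl, hlo, ?_, rfl⟩
      rw [Nat.cast_sub h1]
      linarith

/-- the errors of the first law -/
lemma err1 {A : ℝ} (hA : 0 < A) {η : ℝ} (hη : 0 < η) (K : ℕ) : ∀ᶠ M : ℕ in atTop,
    (A * log M) ^ (η / 2) ≤ (log (M : ℝ)) ^ η ∧
    ((A * log M) ^ (K + 1))⁻¹ ≤ ((log (M : ℝ)) ^ K)⁻¹ := by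
  have hlog : Tendsto (fun M : ℕ => log (M : ℝ)) atTop atTop :=
    Real.tendsto_log_atTop.comp tendsto_natCast_atTop_atTop
  have e2 : ∀ᶠ t : ℝ in atTop, (A * t) ^ (η / 2) ≤ t ^ η := by
    filter_upwards [eventually_ge_atTop A, eventually_gt_atTop 0] with t h1 h2
    calc (A * t) ^ (η / 2) ≤ (t * t) ^ (η / 2) := by gcongr
      _ = t ^ η := by
          rw [Real.mul_rpow h2.le h2.le, ← Real.rpow_add h2]
          congr 1
          ring
  have e3 : ∀ᶠ t : ℝ in atTop, ((A * t) ^ (K + 1))⁻¹ ≤ (t ^ K)⁻¹ := by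
    filter_upwards [eventually_ge_atTop ((A ^ (K + 1))⁻¹), eventually_gt_atTop 0] with t h1 h2
    apply inv_anti₀ (by positivity)
    have h3 : 1 ≤ A ^ (K + 1) * t := by
      rw [inv_le_iff_one_le_mul₀ (by positivity)] at h1
      linarith
    calc t ^ K ≤ t ^ K * (A ^ (K + 1) * t) := le_mul_of_one_le_right (by positivity) h3
      _ = (A * t) ^ (K + 1) := by ring
  exact (hlog.eventually e2).and (hlog.eventually e3)

/-- half of the range -/
lemma tg_half {q : ℕ} {L : ℕ → ℝ} {S : ℕ → Set (Measure ℝ)} (hT : TG q (fun M => 2 * L M) S) :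
    TG q L S := by
  obtain ⟨h1, h2, h3⟩ := hT
  have hL : Tendsto L atTop atTop := by
    have := h1.const_mul_atTop (show (0 : ℝ) < 1 / 2 by norm_num)
    refine this.congr fun M => ?_
    ring
  refine ⟨hL, h2, fun k D => ?_⟩
  filter_upwards [h3 k D, hL.eventually_gt_atTop 0] with M h4 h5 P hP n hn u v hu hv
  refine (h4 P hP n (fun i => by linarith [hn i]) u v hu hv).trans ?_
  gcongr
  linarith

end Pool.Agent.N639.FH
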