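import Pool.Agent.N639.FH.TW
import Pool.Agent.N639.FS.C5
import Pool.Agent.Y933.KE.SmearRes

/-!
# Project FH: tests on the digits of a finite family of natural numbers
-/

set_option autoImplicit false

namespace Pool.Agent.N639.FH

open Finset Real MeasureTheory Pool.Agent.Y933.KD Filter Topology
open Pool.Agent.N639.FS Pool.Agent.N639.FG
open Pool.Agent.Y933.KE (WE smear meas_map smear_prob wd_smear real_smear measurableSet_WE)
open scoped ENNReal

variable {ι : Type*}

lemma wd_end {b : ℕ} (hb : 1 ≤ b) (w k n : ℕ) (x : ℝ) :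
    wd b (w + k) n x % b ^ k = wd b k (n + w) x := by
  have e1 : wd b (w + k) n x = wd b (w + k) n (Tb b 0 x) := by
    rw [← wd_add, Nat.zero_add]
  have e2 : wd b k (n + w) x = wd b k (n + w) (Tb b 0 x) := by
    rw [← wd_add, Nat.zero_add]
  rw [e1, e2, wd_eq_mod hb _ _ (Tb_mem b 0 x).1, wd_eq_mod hb _ _ (Tb_mem b 0 x).1,
    Nat.mod_mod_of_dvd _ (pow_dvd_pow b (Nat.le_add_left k w))]
  congr 4
  omega

lemma wd_zero (b n : ℕ) (x : ℝ) : wd b 0 n x = 0 := by
  unfold wd
  rw [pow_zero, one_mul, Nat.floor_eq_zero]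
  exact Int.fract_lt_one _

/-- the part of a word inside the first `J` digits, and the rest -/
lemma split_word {b : ℕ} (hb : 1 ≤ b) (w n J c : ℕ) (x : ℝ) :
    wd b w n x = c ↔
      wd b (min (n + w) J - min n J) (min n J) x = c / b ^ (max (n + w) J - max n J) ∧
      wd b (max (n + w) J - max n J) (max n J - J) (Tb b J x) =
        c % b ^ (max (n + w) J - max n J) := by
  rcases le_total (n + w) J with h1 | h1
  · have e1 : min (n + w) J - min n J = w := by omega
    have e2 : min n J = n := by omega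
    have e3 : max (n + w) J - max n J = 0 := by omega
    rw [e1, e2, e3, pow_zero, Nat.div_one, Nat.mod_one, wd_zero]
    simp
  · rcases le_total J n with h2 | h2
    · have e1 : min (n + w) J - min n J = 0 := by omega
      have e3 : max (n + w) J - max n J = w := by omega
      rw [e1, e3, wd_zero, ← wd_add]
      have e4 : J + (max n J - J) = n := by omega
      rw [e4]
      constructor
      · intro h
        have := wd_lt hb w n x
        rw [h] at this
        rw [Nat.div_eq_of_lt this, Nat.mod_eq_of_lt this]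
        exact ⟨rfl, h⟩
      · rintro ⟨h3, h4⟩
        have h5 : c < b ^ w := by
          by_contra h6
          have := Nat.div_pos (not_lt.1 h6) (pow_pos (by omega) w)
          omega
        rw [h4, Nat.mod_eq_of_lt h5]
    · have e2 : min n J = n := by omega
      obtain ⟨w1, hw1⟩ : ∃ w1, J = n + w1 := ⟨J - n, by omega⟩
      obtain ⟨w2, hw2⟩ : ∃ w2, w = w1 + w2 := ⟨w - w1, by omega⟩
      have e1 : min (n + w) J - min n J = w1 := by omega
      have e3 : max (n + w) J - max n J = w2 := by omega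
      have e4 : max n J - J = 0 := by omega
      rw [e1, e2, e3, e4, ← wd_add, Nat.add_zero, hw2]
      have h3 := wd_begin hb w1 w2 n x
      have h4 := wd_end hb w1 w2 n x
      rw [hw1]
      constructor
      · intro h
        rw [h] at h3 h4
        exact ⟨h3.symm, h4.symm⟩
      · rintro ⟨h5, h6⟩
        rw [← Nat.div_add_mod (wd b (w1 + w2) n x) (b ^ w2), h3, h4, h5, h6]
        exact Nat.div_add_mod _ _

/-- the measure of a set under a smeared law -/
lemma real_smear_gen (s : Finset ι) (X : ι → ℕ) (b J : ℕ) {E : Set ℝ} (hE : MeasurableSet E) :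
    (smear s X b J).real E =
      (∑ m ∈ s, Leb.real {θ | ((X m : ℝ) + θ) / (b : ℝ) ^ J ∈ E}) / s.card := by
  unfold smear Measure.real
  rw [Measure.smul_apply, Measure.finsetSum_apply, smul_eq_mul, ENNReal.toReal_mul,
    ENNReal.toReal_inv, ENNReal.toReal_natCast, ENNReal.toReal_sum]
  · rw [inv_mul_eq_div]
    congr 1
    refine sum_congr rfl fun m _ => ?_
    rw [Measure.map_apply (meas_map _ _) hE]
    rfl
  · intro m _
    have := Measure.isProbabilityMeasure_map (μ := Leb)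
      (meas_map (X m : ℝ) ((b : ℝ) ^ J)).aemeasurable
    exact measure_ne_top _ _

lemma leb_ico_one : Leb.real (Set.Ico (0 : ℝ) 1) = 1 := by
  unfold Leb
  rw [measureReal_restrict_apply measurableSet_Ico, Set.inter_self, Real.volume_real_Ico]
  norm_num

lemma leb_inter (E : Set ℝ) : Leb.real (E ∩ Set.Ico (0 : ℝ) 1) = Leb.real E := by
  unfold Leb
  rw [measureReal_restrict_apply' measurableSet_Ico, measureReal_restrict_apply' measurableSet_Ico,
    Set.inter_assoc, Set.inter_self]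

lemma leb_congr {E F : Set ℝ} (h : ∀ θ ∈ Set.Ico (0 : ℝ) 1, (θ ∈ E ↔ θ ∈ F)) :
    Leb.real E = Leb.real F := by
  rw [← leb_inter E, ← leb_inter F]
  congr 1
  ext θ
  constructor
  · rintro ⟨h1, h2⟩
    exact ⟨(h θ h2).1 h1, h2⟩
  · rintro ⟨h1, h2⟩
    exact ⟨(h θ h2).2 h1, h2⟩

lemma Tb_smear {b : ℕ} (hb : 1 ≤ b) (J X : ℕ) {θ : ℝ} (hθ : θ ∈ Set.Ico (0 : ℝ) 1) :
    Tb b J (((X : ℝ) + θ) / (b : ℝ) ^ J) = θ := by
  unfold Tb
  have hb' : (b : ℝ) ^ J ≠ 0 := by positivity
  rw [mul_div_cancel₀ _ hb', add_comm, Int.fract_add_natCast]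
  exact Int.fract_eq_self.2 ⟨hθ.1, hθ.2⟩

/-- factorization, smeared law -/
lemma smear_WE {k : ℕ} {b : ℕ} (hb : 1 ≤ b) (s : Finset ι) (X : ι → ℕ) (J : ℕ)
    (n1 w1 c1 n2 w2 c2 : Fin k → ℕ) (h1 : ∀ i, n1 i + w1 i ≤ J) {E : Set ℝ}
    (hE : ∀ x, x ∈ E ↔ (x ∈ WE b n1 w1 c1 ∧ Tb b J x ∈ WE b n2 w2 c2)) :
    (smear s X b J).real E =
      (smear s X b J).real (WE b n1 w1 c1) * Leb.real (WE b n2 w2 c2) := by
  classical
  have hEm : MeasurableSet E := by
    have : E = WE b n1 w1 c1 ∩ Tb b J ⁻¹' WE b n2 w2 c2 := by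
      ext x
      exact hE x
    rw [this]
    exact (measurableSet_WE _ _ _ _).inter ((measurable_Tb b J) (measurableSet_WE _ _ _ _))
  rw [real_smear_gen s X b J hEm, real_smear_gen s X b J (measurableSet_WE _ _ _ _),
    div_mul_eq_mul_div, sum_mul]
  congr 1
  refine sum_congr rfl fun m _ => ?_
  have hA : ∀ θ ∈ Set.Ico (0 : ℝ) 1, (((X m : ℝ) + θ) / (b : ℝ) ^ J ∈ WE b n1 w1 c1 ↔
      ∀ i, X m / b ^ (J - (n1 i + w1 i)) % b ^ w1 i = c1 i) := by
    intro θ hθ
    unfold WE
    simp only [Set.mem_ofPred_eq]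
    refine forall_congr' fun i => ?_
    rw [wd_smear hb (h1 i) (X m) hθ]
  by_cases hp : ∀ i, X m / b ^ (J - (n1 i + w1 i)) % b ^ w1 i = c1 i
  · have e1 : Leb.real {θ | ((X m : ℝ) + θ) / (b : ℝ) ^ J ∈ WE b n1 w1 c1} = 1 := by
      rw [← leb_ico_one]
      refine leb_congr fun θ hθ => ?_
      rw [Set.mem_ofPred_eq, hA θ hθ]
      exact ⟨fun _ => hθ, fun _ => hp⟩
    rw [e1, one_mul]
    refine leb_congr fun θ hθ => ?_
    rw [Set.mem_ofPred_eq, hE, hA θ hθ, Tb_smear hb J (X m) hθ]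
    exact ⟨fun h => h.2, fun h => ⟨hp, h⟩⟩
  · have e1 : Leb.real {θ | ((X m : ℝ) + θ) / (b : ℝ) ^ J ∈ WE b n1 w1 c1} = 0 := by
      rw [← measureReal_empty (μ := Leb)]
      refine leb_congr fun θ hθ => ?_
      rw [Set.mem_ofPred_eq, hA θ hθ]
      exact ⟨fun h => absurd h hp, fun h => absurd h (Set.notMem_empty _)⟩
    rw [e1, zero_mul, ← measureReal_empty (μ := Leb)]
    refine leb_congr fun θ hθ => ?_
    rw [Set.mem_ofPred_eq, hE, hA θ hθ]
    exact ⟨fun h => absurd h.1 hp, fun h => absurd h (Set.notMem_empty _)⟩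

/-- factorization, Lebesgue measure -/
lemma leb_WE {k : ℕ} {b : ℕ} (hb : 1 ≤ b) (J : ℕ)
    (n1 w1 c1 n2 w2 c2 : Fin k → ℕ) (h1 : ∀ i, n1 i + w1 i ≤ J) {E : Set ℝ}
    (hE : ∀ x, x ∈ E ↔ (x ∈ WE b n1 w1 c1 ∧ Tb b J x ∈ WE b n2 w2 c2)) :
    Leb.real E = Leb.real (WE b n1 w1 c1) * Leb.real (WE b n2 w2 c2) := by
  classical
  have hEm : MeasurableSet E := by
    have : E = WE b n1 w1 c1 ∩ Tb b J ⁻¹' WE b n2 w2 c2 := by
      ext x
      exact hE x
    rw [this]
    exact (measurableSet_WE _ _ _ _).inter ((measurable_Tb b J) (measurableSet_WE _ _ _ _))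
  rw [← integral_indicator_one hEm, ← integral_indicator_one (measurableSet_WE b n1 w1 c1),
    ← integral_indicator_one (measurableSet_WE b n2 w2 c2)]
  have hdep : Dep b J ((WE b n1 w1 c1).indicator (1 : ℝ → ℝ)) := by
    have e1 : (WE b n1 w1 c1).indicator (1 : ℝ → ℝ) =
        fun x => ∏ i, cnd b (w1 i) (n1 i) (c1 i) x := by
      funext x
      unfold cnd
      rw [Finset.prod_ite_zero]
      by_cases h : x ∈ WE b n1 w1 c1
      · rw [Set.indicator_of_mem h, if_pos (fun i _ => h i)]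
        simp
      · rw [Set.indicator_of_notMem h, if_neg (fun h' => h fun i => h' i (mem_univ i))]
    rw [e1]
    exact dep_prod _ _ fun i _ => dep_cnd hb (h1 i) _
  have hm : Measurable ((WE b n2 w2 c2).indicator (1 : ℝ → ℝ)) :=
    measurable_one.indicator (measurableSet_WE _ _ _ _)
  rw [← renewal_real hb hdep hm (C := 1) (fun x => by
    by_cases h : x ∈ WE b n2 w2 c2
    · rw [Set.indicator_of_mem h]; simp
    · rw [Set.indicator_of_notMem h]; simp)]
  congr 1
  funext x
  by_cases hx1 : x ∈ WE b n1 w1 c1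
  · by_cases hx2 : Tb b J x ∈ WE b n2 w2 c2
    · rw [Set.indicator_of_mem ((hE x).2 ⟨hx1, hx2⟩), Set.indicator_of_mem hx1,
        Set.indicator_of_mem hx2]
      simp
    · rw [Set.indicator_of_notMem (fun h => hx2 ((hE x).1 h).2), Set.indicator_of_notMem hx2,
        mul_zero]
  · rw [Set.indicator_of_notMem (fun h => hx1 ((hE x).1 h).1), Set.indicator_of_notMem hx1,
      zero_mul]

/-- **Tests on the digits of a finite family of natural numbers** -/
theorem tw_smear {k : ℕ} {q : ℕ} (hq : 1 ≤ q) (s : Finset ι) (X : ι → ℕ) (J : ℕ)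
    {Δ : ℝ} (h : ∀ n w c : Fin k → ℕ, (∀ i, n i + w i ≤ J) →
      |((s.filter (fun m => ∀ r, X m / q ^ (J - (n r + w r)) % q ^ (w r) = c r)).card : ℝ) /
        s.card - Leb.real (WE q n w c)| ≤ Δ) (n w c : Fin k → ℕ) :
    |(smear s X q J).real (WE q n w c) - Leb.real (WE q n w c)| ≤ Δ := by
  set n1 : Fin k → ℕ := fun i => min (n i) J with hn1
  set w1 : Fin k → ℕ := fun i => min (n i + w i) J - min (n i) J with hw1
  set c1 : Fin k → ℕ := fun i => c i / q ^ (max (n i + w i) J - max (n i) J) with hc1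
  set n2 : Fin k → ℕ := fun i => max (n i) J - J with hn2
  set w2 : Fin k → ℕ := fun i => max (n i + w i) J - max (n i) J with hw2
  set c2 : Fin k → ℕ := fun i => c i % q ^ (max (n i + w i) J - max (n i) J) with hc2
  have h1 : ∀ i, n1 i + w1 i ≤ J := by
    intro i
    simp only [hn1, hw1]
    omega
  have hE : ∀ x, x ∈ WE q n w c ↔ (x ∈ WE q n1 w1 c1 ∧ Tb q J x ∈ WE q n2 w2 c2) := by
    intro x
    unfold WE
    simp only [Set.mem_ofPred_eq]
    rw [← forall_and]
    exact forall_congr' fun i => split_word hq (w i) (n i) J (c i) x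
  rw [smear_WE hq s X J n1 w1 c1 n2 w2 c2 h1 hE, leb_WE hq J n1 w1 c1 n2 w2 c2 h1 hE, ← sub_mul,
    abs_mul]
  have h2 := h n1 w1 c1 h1
  have h3 : (smear s X q J).real (WE q n1 w1 c1) =
      ((s.filter (fun m => ∀ r, X m / q ^ (J - (n1 r + w1 r)) % q ^ (w1 r) = c1 r)).card : ℝ) /
        s.card := by
    refine real_smear X q J (measurableSet_WE _ _ _ _) _ fun m _ θ hθ => ?_
    unfold WE
    simp only [Set.mem_ofPred_eq]
    refine forall_congr' fun i => ?_
    rw [wd_smear hq (h1 i) (X m) hθ]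
  rw [h3]
  have h4 : |Leb.real (WE q n2 w2 c2)| ≤ 1 := by
    rw [abs_of_nonneg measureReal_nonneg]
    exact measureReal_le_one
  have h5 := (abs_nonneg _).trans h2
  calc _ ≤ Δ * 1 := mul_le_mul h2 h4 (abs_nonneg _) h5
    _ = Δ := mul_one _

open Classical in
/-- from smeared laws to counts -/
lemma cnt_smear {s : Finset ι} {X : ι → ℕ} {b J : ℕ} {U : Set ℝ} (hU : MeasurableSet U) {ε : ℝ}
    (h : (smear s X b J).real U ≤ ε) {Q : ι → Prop}
    (hQ : ∀ m ∈ s, ∀ θ ∈ Set.Ico (0 : ℝ) 1, ((X m : ℝ) + θ) / (b : ℝ) ^ J ∉ U → Q m) :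
    ((s.filter (fun m => ¬ Q m)).card : ℝ) ≤ ε * s.card := by
  rw [real_smear_gen s X b J hU] at h
  rcases Nat.eq_zero_or_pos s.card with h0 | h0
  · have : (s.filter (fun m => ¬ Q m)).card ≤ s.card := card_filter_le _ _
    have h4 : (s.filter (fun m => ¬ Q m)).card = 0 := by omega
    rw [h4, h0]
    simp
  · have h5 : (0 : ℝ) < s.card := by exact_mod_cast h0
    rw [div_le_iff₀ h5] at h
    refine le_trans ?_ h
    have h6 : ((s.filter (fun m => ¬ Q m)).card : ℝ) =
        ∑ m ∈ s, if ¬ Q m then (1 : ℝ) else 0 := by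
      rw [card_filter]
      push_cast
      rfl
    rw [h6]
    refine sum_le_sum fun m hm => ?_
    by_cases h7 : Q m
    · rw [if_neg (not_not.2 h7)]
      exact measureReal_nonneg
    · rw [if_pos h7, ← leb_ico_one]
      refine measureReal_mono ?_ (measure_ne_top _ _)
      intro θ hθ
      by_contra h8
      exact h7 (hQ m hm θ hθ h8)

end Pool.Agent.N639.FH
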