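import Pool.Agent.N639.FG.TR
import Pool.Agent.N639.FS.L1
import Pool.Agent.Y933.KE.TW

/-!
# Project FH: from tests on words to tests on intervals
-/

set_option autoImplicit false

namespace Pool.Agent.N639.FH

open Finset Real MeasureTheory Pool.Agent.Y933.KD Filter Topology
open Pool.Agent.N639.FS Pool.Agent.N639.FG

/-- the set on which a condition on `k` words holds -/
def WC {k : ℕ} (b w : ℕ) (n : Fin k → ℕ) (φ : (Fin k → ℕ) → Prop) : Set ℝ :=
  {x | φ (fun i => wd b w (n i) x)}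

lemma measurableSet_WC {k : ℕ} (b w : ℕ) (n : Fin k → ℕ) (φ : (Fin k → ℕ) → Prop) :
    MeasurableSet (WC b w n φ) := by
  have h1 : Measurable (fun x : ℝ => fun i => wd b w (n i) x) :=
    measurable_pi_lambda _ fun i => measurable_wd _ _ _
  have h2 : MeasurableSet {c : Fin k → ℕ | φ c} := Set.to_countable _ |>.measurableSet
  exact h1 h2

open Classical in
lemma real_WC {k : ℕ} {b w : ℕ} (hb : 1 ≤ b) (n : Fin k → ℕ) (φ : (Fin k → ℕ) → Prop)
    (P : Measure ℝ) [IsProbabilityMeasure P] :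
    P.real (WC b w n φ) = ∑ c ∈ Fintype.piFinset (fun _ : Fin k => range (b ^ w)),
      (if φ c then (1 : ℝ) else 0) * P.real (EvW b w n c) := by
  rw [← integral_indicator_one (measurableSet_WC b w n φ)]
  have h2 : ∀ x, (WC b w n φ).indicator (1 : ℝ → ℝ) x =
      ∑ c ∈ Fintype.piFinset (fun _ : Fin k => range (b ^ w)),
        (if φ c then (1 : ℝ) else 0) * (EvW b w n c).indicator (1 : ℝ → ℝ) x := by
    intro x
    have h3 : (WC b w n φ).indicator (1 : ℝ → ℝ) x =
        (if φ (fun i => wd b w (n i) x) then (1 : ℝ) else 0) := by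
      unfold WC
      by_cases h : φ (fun i => wd b w (n i) x)
      · rw [Set.indicator_of_mem (by exact h), if_pos h]; rfl
      · rw [Set.indicator_of_notMem (by exact h), if_neg h]
    rw [h3, word_expand hb (fun c => if φ c then (1 : ℝ) else 0) n x]
    exact sum_congr rfl fun c _ => by rw [prod_cnd' hb]
  simp only [h2]
  rw [integral_finsetSum _ fun c _ => ?_]
  · refine sum_congr rfl fun c _ => ?_
    rw [MeasureTheory.integral_const_mul, integral_indicator_one (measurableSet_EvW _ _ _ _)]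
  · refine Integrable.const_mul ?_ _
    exact (integrable_const (1 : ℝ)).indicator (measurableSet_EvW _ _ _ _)

lemma diff_WC {k : ℕ} {b w : ℕ} (hb : 1 ≤ b) (n : Fin k → ℕ) (φ : (Fin k → ℕ) → Prop)
    (P Q : Measure ℝ) [IsProbabilityMeasure P] [IsProbabilityMeasure Q] {Δ : ℝ}
    (h : ∀ c : Fin k → ℕ, |P.real (EvW b w n c) - Q.real (EvW b w n c)| ≤ Δ) :
    |P.real (WC b w n φ) - Q.real (WC b w n φ)| ≤ ((b : ℝ) ^ w) ^ k * Δ := by
  classical
  have hΔ : 0 ≤ Δ := (abs_nonneg _).trans (h 0)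
  rw [real_WC hb n φ P, real_WC hb n φ Q, ← sum_sub_distrib]
  refine (abs_sum_le_sum_abs _ _).trans ?_
  refine (sum_le_card_nsmul _ _ Δ fun c _ => ?_).trans ?_
  · rw [← mul_sub, abs_mul]
    split_ifs
    · rw [abs_one, one_mul]; exact h c
    · rw [abs_zero, zero_mul]; exact hΔ
  · rw [Fintype.card_piFinset, nsmul_eq_mul]
    simp

/-- one word under the Lebesgue measure -/
lemma leb_one {b w : ℕ} (hb : 1 ≤ b) (n c : ℕ) :
    Leb.real {x | wd b w n x = c} ≤ 1 / (b : ℝ) ^ w := by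
  by_cases hc : c < b ^ w
  · have h1 := Pool.Agent.N639.FS.l1 b w hb {n} (by
      intro a ha c hc hac
      rw [mem_singleton] at ha hc
      omega) (fun _ => c) (fun _ => hc)
    simp only [prod_singleton, card_singleton, pow_one] at h1
    have h2 : ∀ x, cnd b w n c x = ({x | wd b w n x = c} : Set ℝ).indicator (1 : ℝ → ℝ) x := by
      intro x
      unfold cnd
      by_cases h : wd b w n x = c
      · rw [if_pos h, Set.indicator_of_mem (by exact h)]; rfl
      · rw [if_neg h, Set.indicator_of_notMem (by exact h)]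
    simp only [h2] at h1
    have hm : MeasurableSet {x | wd b w n x = c} :=
      (measurable_wd b w n) (measurableSet_singleton c)
    rw [integral_indicator_one hm] at h1
    exact h1.le
  · have h1 : {x | wd b w n x = c} = ∅ := by
      ext x
      simp only [Set.mem_ofPred_eq, Set.mem_empty_iff_false, iff_false]
      intro h
      have := wd_lt hb w n x
      omega
    rw [h1]
    simp only [measureReal_empty]
    positivity

/-- few words lie strictly between `a - 1` and `a` -/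
lemma leb_gap {b w : ℕ} (hb : 1 ≤ b) (n : ℕ) (a : ℝ) :
    Leb.real {x | a - 1 < (wd b w n x : ℝ) ∧ (wd b w n x : ℝ) < a} ≤ 1 / (b : ℝ) ^ w := by
  refine le_trans (measureReal_mono ?_ (measure_ne_top _ _)) (leb_one hb n (⌈a⌉₊ - 1) (w := w))
  rintro x ⟨h1, h2⟩
  simp only [Set.mem_ofPred_eq]
  have h3 : wd b w n x < ⌈a⌉₊ := Nat.lt_ceil.2 h2
  have h4 : ⌈a⌉₊ < wd b w n x + 2 := by
    have h5 : 0 ≤ a := (Nat.cast_nonneg _).trans h2.le
    have h6 := Nat.ceil_lt_add_one h5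
    have h7 : ((⌈a⌉₊ : ℕ) : ℝ) < ((wd b w n x + 2 : ℕ) : ℝ) := by
      push_cast
      linarith
    exact_mod_cast h7
  omega

/-- the words which meet the intervals -/
def phiO {k : ℕ} (b w : ℕ) (u v : Fin k → ℝ) (c : Fin k → ℕ) : Prop :=
  ∀ i, u i * (b : ℝ) ^ w - 1 < c i ∧ (c i : ℝ) < v i * (b : ℝ) ^ w

/-- the words inside the intervals -/
def phiI {k : ℕ} (b w : ℕ) (u v : Fin k → ℝ) (c : Fin k → ℕ) : Prop :=
  ∀ i, u i * (b : ℝ) ^ w ≤ c i ∧ (c i : ℝ) + 1 ≤ v i * (b : ℝ) ^ w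

lemma wd_le_fract {b : ℕ} (hb : 1 ≤ b) (w n : ℕ) (x : ℝ) :
    (wd b w n x : ℝ) ≤ (b : ℝ) ^ w * Int.fract ((b : ℝ) ^ n * x) ∧
    (b : ℝ) ^ w * Int.fract ((b : ℝ) ^ n * x) < wd b w n x + 1 := by
  unfold wd
  have h : 0 ≤ (b : ℝ) ^ w * Int.fract ((b : ℝ) ^ n * x) :=
    mul_nonneg (by positivity) (Int.fract_nonneg _)
  exact ⟨Nat.floor_le h, Nat.lt_floor_add_one _⟩

lemma Ev_sub {k : ℕ} {b w : ℕ} (hb : 1 ≤ b) (n : Fin k → ℕ) (u v : Fin k → ℝ) :
    WC b w n (phiI b w u v) ⊆ Ev (fun _ => b) n u v ∧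
    Ev (fun _ => b) n u v ⊆ WC b w n (phiO b w u v) := by
  have hb' : (0 : ℝ) < (b : ℝ) ^ w := by positivity
  constructor
  · intro x hx i
    obtain ⟨h1, h2⟩ := hx i
    obtain ⟨h3, h4⟩ := wd_le_fract hb w (n i) x
    constructor
    · refine le_of_mul_le_mul_right ?_ hb'
      rw [mul_comm (Int.fract _)]
      linarith
    · refine lt_of_mul_lt_mul_right ?_ hb'.le
      rw [mul_comm (Int.fract _)]
      linarith
  · intro x hx i
    obtain ⟨h1, h2⟩ := hx i
    obtain ⟨h3, h4⟩ := wd_le_fract hb w (n i) x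
    have h5 : u i * (b : ℝ) ^ w ≤ (b : ℝ) ^ w * Int.fract ((b : ℝ) ^ n i * x) := by
      rw [mul_comm]
      exact mul_le_mul_of_nonneg_left h1 hb'.le
    have h6 : (b : ℝ) ^ w * Int.fract ((b : ℝ) ^ n i * x) < v i * (b : ℝ) ^ w := by
      rw [mul_comm (v i)]
      exact mul_lt_mul_of_pos_left h2 hb'
    constructor
    · linarith
    · linarith

lemma leb_OI {k : ℕ} {b w : ℕ} (hb : 1 ≤ b) (n : Fin k → ℕ) (u v : Fin k → ℝ) :
    Leb.real (WC b w n (phiO b w u v)) ≤
      Leb.real (WC b w n (phiI b w u v)) + 2 * k / (b : ℝ) ^ w := by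
  have hsub : WC b w n (phiO b w u v) ⊆ WC b w n (phiI b w u v) ∪ ⋃ i : Fin k,
      ({x | u i * (b : ℝ) ^ w - 1 < (wd b w (n i) x : ℝ) ∧
        (wd b w (n i) x : ℝ) < u i * (b : ℝ) ^ w} ∪
       {x | v i * (b : ℝ) ^ w - 1 < (wd b w (n i) x : ℝ) ∧
        (wd b w (n i) x : ℝ) < v i * (b : ℝ) ^ w}) := by
    intro x hx
    by_cases h : x ∈ WC b w n (phiI b w u v)
    · exact Or.inl h
    · right
      have h1 : ¬ ∀ i, u i * (b : ℝ) ^ w ≤ (wd b w (n i) x : ℝ) ∧
        (wd b w (n i) x : ℝ) + 1 ≤ v i * (b : ℝ) ^ w := h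
      push Not at h1
      obtain ⟨i, hi⟩ := h1
      obtain ⟨h2, h3⟩ := hx i
      rw [Set.mem_iUnion]
      refine ⟨i, ?_⟩
      by_cases h4 : u i * (b : ℝ) ^ w ≤ (wd b w (n i) x : ℝ)
      · right
        exact ⟨by linarith [hi h4], h3⟩
      · left
        exact ⟨h2, not_le.1 h4⟩
  refine (measureReal_mono hsub (measure_ne_top _ _)).trans ?_
  refine (measureReal_union_le _ _).trans ?_
  gcongr
  refine (measureReal_iUnion_fintype_le _).trans ?_
  refine (sum_le_card_nsmul _ _ (2 / (b : ℝ) ^ w) fun i _ => ?_).trans ?_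
  · refine (measureReal_union_le _ _).trans ?_
    have h1 := leb_gap (w := w) hb (n i) (u i * (b : ℝ) ^ w)
    have h2 := leb_gap (w := w) hb (n i) (v i * (b : ℝ) ^ w)
    have e : 2 / (b : ℝ) ^ w = 1 / (b : ℝ) ^ w + 1 / (b : ℝ) ^ w := by ring
    rw [e]
    exact add_le_add h1 h2
  · rw [card_univ, Fintype.card_fin, nsmul_eq_mul]
    exact le_of_eq (by ring)

/-- **from words to intervals** -/
theorem sandwich {k : ℕ} {b : ℕ} (w : ℕ) (hb : 1 ≤ b) (n : Fin k → ℕ) (u v : Fin k → ℝ)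
    (P : Measure ℝ) [IsProbabilityMeasure P] {Δ : ℝ}
    (h : ∀ c : Fin k → ℕ, |P.real (EvW b w n c) - Leb.real (EvW b w n c)| ≤ Δ) :
    |P.real (Ev (fun _ => b) n u v) - Leb.real (Ev (fun _ => b) n u v)| ≤
      2 * k / (b : ℝ) ^ w + ((b : ℝ) ^ w) ^ k * Δ := by
  obtain ⟨h1, h2⟩ := Ev_sub (w := w) hb n u v
  have a1 := measureReal_mono (μ := P) h1 (measure_ne_top _ _)
  have a2 := measureReal_mono (μ := P) h2 (measure_ne_top _ _)
  have a3 := measureReal_mono (μ := Leb) h1 (measure_ne_top _ _)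
  have a4 := measureReal_mono (μ := Leb) h2 (measure_ne_top _ _)
  have a5 := leb_OI (w := w) hb n u v
  have a6 := abs_le.1 (diff_WC hb n (phiO b w u v) P Leb h)
  have a7 := abs_le.1 (diff_WC hb n (phiI b w u v) P Leb h)
  rw [abs_le]
  constructor
  · linarith [a7.1]
  · linarith [a6.2]

/-- a length of words -/
lemma exists_len {b : ℕ} (hb : 2 ≤ b) {X : ℝ} (hX : 1 ≤ X) : ∃ w : ℕ, X ≤ (b : ℝ) ^ w ∧
    (b : ℝ) ^ w ≤ b * X ∧ (w : ℝ) ≤ 2 * log X + 1 := by
  have hbR : (2 : ℝ) ≤ b := by exact_mod_cast hb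
  have hb0 : (0 : ℝ) < b := by linarith
  have hX0 : 0 < X := by linarith
  have hlog : 0 ≤ Real.logb b X := Real.logb_nonneg (by linarith) hX
  refine ⟨⌈Real.logb b X⌉₊, ?_, ?_, ?_⟩
  · calc X = (b : ℝ) ^ Real.logb b X := (Real.rpow_logb hb0 (by linarith) hX0).symm
      _ ≤ (b : ℝ) ^ ((⌈Real.logb b X⌉₊ : ℕ) : ℝ) :=
          Real.rpow_le_rpow_of_exponent_le (by linarith) (Nat.le_ceil _)
      _ = _ := Real.rpow_natCast _ _
  · have h1 : ((⌈Real.logb b X⌉₊ : ℕ) : ℝ) ≤ 1 + Real.logb b X := by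
      linarith [Nat.ceil_lt_add_one hlog]
    calc (b : ℝ) ^ ⌈Real.logb b X⌉₊ = (b : ℝ) ^ ((⌈Real.logb b X⌉₊ : ℕ) : ℝ) :=
          (Real.rpow_natCast _ _).symm
      _ ≤ (b : ℝ) ^ (1 + Real.logb b X) :=
          Real.rpow_le_rpow_of_exponent_le (by linarith) h1
      _ = b * X := by
          rw [Real.rpow_add hb0, Real.rpow_one, Real.rpow_logb hb0 (by linarith) hX0]
  · have h1 : ((⌈Real.logb b X⌉₊ : ℕ) : ℝ) ≤ Real.logb b X + 1 := (Nat.ceil_lt_add_one hlog).le
    have h2 : Real.logb b X ≤ 2 * log X := by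
      unfold Real.logb
      have h3 : 1 / 2 ≤ log (b : ℝ) := by
        have h4 : log 2 ≤ log (b : ℝ) := Real.log_le_log (by norm_num) hbR
        have := Real.log_two_gt_d9
        linarith
      rw [div_le_iff₀ (by linarith)]
      have h5 : 0 ≤ log X := Real.log_nonneg hX
      nlinarith
    linarith

/-- **from tests on words with a power saving** -/
theorem tg_of_words {b : ℕ} (hb : 2 ≤ b) {A A' : ℝ} (hA' : 0 < A') (hA : A' < A)
    {S : ℕ → Set (Measure ℝ)} (hS : ∀ M : ℕ, 1 ≤ M → ∀ P ∈ S M, IsProbabilityMeasure P)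
    (hT : ∀ k : ℕ, ∃ δ : ℝ, 0 < δ ∧ ∃ C : ℝ, ∀ᶠ M : ℕ in atTop, ∀ P ∈ S M,
      ∀ n w c : Fin k → ℕ, (∀ i, (n i : ℝ) + w i ≤ A * log M) →
      |P.real (Pool.Agent.Y933.KE.WE b n w c) - Leb.real (Pool.Agent.Y933.KE.WE b n w c)| ≤
        C * (M : ℝ) ^ (-δ)) : TG b (fun M => A' * log M) S := by
  have hbR : (2 : ℝ) ≤ b := by exact_mod_cast hb
  have hb1 : 1 ≤ b := by omega
  have hlog0 : Tendsto (fun M : ℕ => log (M : ℝ)) atTop atTop :=
    Real.tendsto_log_atTop.comp tendsto_natCast_atTop_atTop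
  have hlog : Tendsto (fun M : ℕ => A' * log (M : ℝ)) atTop atTop :=
    hlog0.const_mul_atTop hA'
  refine ⟨hlog, ?_, ?_⟩
  · filter_upwards [eventually_ge_atTop 1] with M hM P hP
    exact hS M hM P hP
  · intro k D
    obtain ⟨δ, hδ, C, hC⟩ := hT k
    -- the length of the words
    have e1 : ∀ᶠ t : ℝ in atTop, 2 * log (t ^ (D + 1)) + 1 ≤ (A - A') / A' * t := by
      have h1 : Tendsto (fun t : ℝ => log t / t) atTop (𝓝 0) := by
        have := Real.tendsto_pow_log_div_mul_add_atTop 1 0 1 one_ne_zero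
        simpa using this
      have h2 : (0 : ℝ) < (A - A') / A' / 2 / (2 * (D + 1)) := by
        have : 0 < A - A' := by linarith
        positivity
      have h3 : (0 : ℝ) < (A - A') / A' := by
        have : 0 < A - A' := by linarith
        positivity
      filter_upwards [h1.eventually_le_const h2, eventually_gt_atTop 0,
        eventually_ge_atTop (2 / ((A - A') / A'))] with t g1 g2 g3
      rw [Real.log_pow]
      push_cast
      rw [div_le_iff₀ g2] at g1
      rw [div_le_iff₀ h3] at g3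
      have g4 : 2 * (((D : ℝ) + 1) * log t) ≤ (A - A') / A' / 2 * t := by
        calc 2 * (((D : ℝ) + 1) * log t)
            ≤ 2 * (((D : ℝ) + 1) * ((A - A') / A' / 2 / (2 * (D + 1)) * t)) := by gcongr
          _ = (A - A') / A' / 2 * t := by
              field_simp
      nlinarith
    have e2 := log_pow_le (2 * (max C 0 * ((b : ℝ) ^ k * A' ^ ((D + 1) * k + D))))
      ((D + 1) * k + D) hδ
    filter_upwards [hlog.eventually e1, e2, eventually_ge_atTop 1, hlog.eventually_ge_atTop 1,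
      hlog.eventually_ge_atTop (4 * k), hC] with M g1 g2 g3 g4 g5 hCM P hP n hn u v hu hv
    have := hS M g3 P hP
    have hMp : (0 : ℝ) < M := by exact_mod_cast g3
    set X : ℝ := A' * log M with hX
    have hX0 : 0 < X := by linarith
    obtain ⟨w, hw1, hw2, hw3⟩ := exists_len hb (one_le_pow₀ g4 : 1 ≤ X ^ (D + 1))
    have hw4 : X + w ≤ A * log M := by
      have h6 : (w : ℝ) ≤ (A - A') / A' * X := by linarith
      have h7 : (A - A') / A' * X = (A - A') * log M := by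
        rw [hX]
        field_simp
      rw [h7] at h6
      rw [hX]
      linarith
    have key := sandwich w hb1 n u v P (Δ := C * (M : ℝ) ^ (-δ)) (by
      intro c
      have h8 := hCM P hP n (fun _ => w) c (fun i => by
        have := hn i
        linarith)
      rw [Pool.Agent.Y933.KE.WE_eq hb1] at h8
      exact h8)
    refine key.trans ?_
    have hXD : 0 < X ^ D := by positivity
    have t1 : 2 * (k : ℝ) / (b : ℝ) ^ w ≤ 1 / 2 * (X ^ D)⁻¹ := by
      calc 2 * (k : ℝ) / (b : ℝ) ^ w ≤ 2 * (k : ℝ) / X ^ (D + 1) := by gcongr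
        _ = (2 * k / X) * (X ^ D)⁻¹ := by
            rw [pow_succ]
            field_simp
        _ ≤ 1 / 2 * (X ^ D)⁻¹ := by
            have h20 : 2 * (k : ℝ) / X ≤ 1 / 2 := by
              rw [div_le_iff₀ hX0]
              linarith
            exact mul_le_mul_of_nonneg_right h20 (by positivity)
    have hδM : 0 < (M : ℝ) ^ (-δ) := by positivity
    have t2 : ((b : ℝ) ^ w) ^ k * (C * (M : ℝ) ^ (-δ)) ≤ 1 / 2 * (X ^ D)⁻¹ := by
      have h9 : ((b : ℝ) ^ w) ^ k * (C * (M : ℝ) ^ (-δ)) ≤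
          (b * X ^ (D + 1)) ^ k * (max C 0 * (M : ℝ) ^ (-δ)) := by
        calc ((b : ℝ) ^ w) ^ k * (C * (M : ℝ) ^ (-δ))
            ≤ ((b : ℝ) ^ w) ^ k * (max C 0 * (M : ℝ) ^ (-δ)) := by
              gcongr
              exact le_max_left _ _
          _ ≤ (b * X ^ (D + 1)) ^ k * (max C 0 * (M : ℝ) ^ (-δ)) := by
              have : 0 ≤ max C 0 := le_max_right _ _
              gcongr
      refine h9.trans ?_
      rw [← div_eq_mul_inv, le_div_iff₀ hXD]
      have h10 : (0 : ℝ) < (M : ℝ) ^ δ := by positivity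
      have h11 : (b * X ^ (D + 1)) ^ k * (max C 0 * (M : ℝ) ^ (-δ)) * X ^ D =
          (max C 0 * ((b : ℝ) ^ k * A' ^ ((D + 1) * k + D))) * log M ^ ((D + 1) * k + D) /
            (M : ℝ) ^ δ := by
        rw [Real.rpow_neg hMp.le, hX, mul_pow, ← pow_mul, mul_pow, mul_pow, pow_add, pow_add]
        field_simp
      rw [h11, div_le_iff₀ h10]
      linarith
    linarith

theorem tg_of_TW {b : ℕ} (hb : 2 ≤ b) {A A' : ℝ} (hA' : 0 < A') (hA : A' < A)
    {S : ℕ → Set (Measure ℝ)} (hS : ∀ M : ℕ, 1 ≤ M → ∀ P ∈ S M, IsProbabilityMeasure P)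
    (hT : ∀ k : ℕ, Pool.Agent.Y933.KE.TW b k A S) : TG b (fun M => A' * log M) S := by
  refine tg_of_words hb hA' hA hS fun k => ?_
  obtain ⟨δ, hδ, C, hC⟩ := hT k
  refine ⟨δ, hδ, C, ?_⟩
  filter_upwards [eventually_ge_atTop 1] with M hM
  exact hC M hM

end Pool.Agent.N639.FH
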